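import Pool.Agent.Helper600R2.TS.Stm

/-! Assembly of the main theorem from the modules. -/

namespace Pool.Agent.Helper600R2.TS

open Finset

theorem card_dpreds (L M : ℕ) (v : DV L M) : (dpreds L M v).card ≤ 2 := by
  classical
  have h1 : (univ.filter (fun u : DV L M => u.1 = v.1 ∧ u.2.1 = v.2.1 ∧
      u.2.2.val + 1 = v.2.2.val ∧ 0 < v.1.val)).card ≤ 1 := by
    rw [Finset.card_le_one]
    rintro ⟨a, b, c⟩ ha ⟨a', b', c'⟩ ha'
    simp only [mem_filter, mem_univ, true_and] at ha ha'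
    obtain ⟨h1, h2, h3, _⟩ := ha
    obtain ⟨h1', h2', h3', _⟩ := ha'
    have : c = c' := Fin.ext (by omega)
    subst this
    rw [h1, h1', h2, h2']
  have h2 : (univ.filter (fun u : DV L M => u.1.val + 1 = v.1.val ∧ u.2.1 = v.2.2 ∧
      u.2.2.val + 1 = M)).card ≤ 1 := by
    rw [Finset.card_le_one]
    rintro ⟨a, b, c⟩ ha ⟨a', b', c'⟩ ha'
    simp only [mem_filter, mem_univ, true_and] at ha ha'
    obtain ⟨h1, h2, h3⟩ := ha
    obtain ⟨h1', h2', h3'⟩ := ha'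
    have e1 : a = a' := Fin.ext (by omega)
    have e2 : c = c' := Fin.ext (by omega)
    subst e1 e2
    rw [h2, h2']
  unfold dpreds
  rw [Finset.filter_or]
  exact (card_union_le _ _).trans (by omega)

theorem rk_dpreds (L M : ℕ) (v : DV L M) : ∀ u ∈ dpreds L M v,
    u.1.val * M + u.2.2.val < v.1.val * M + v.2.2.val := by
  intro u hu
  unfold dpreds at hu
  simp only [mem_filter, mem_univ, true_and] at hu
  rcases hu with ⟨h1, h2, h3, _⟩ | ⟨h1, h2, h3⟩
  · rw [h1]; omega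
  · have : v.1.val * M = u.1.val * M + M := by rw [← h1]; ring
    omega

theorem main_asm (hCons : S_Cons) (hRho : S_Rho) (hRes : S_Resolve) (hLoc : S_Local)
    (hVc : S_Vcard) (hWalk : S_Walk) (hShort : S_Short) (hLong : S_Long) (hExp : S_Expander)
    (hUp : S_Upper) (hSem : S_Sem) (hNum : S_Num) : S_Main := by
  intro γ hγ
  obtain ⟨e, c, n₀, he, H⟩ := hNum γ hγ
  refine ⟨3 * (2 * e + 4), c, n₀, fun n hn => ?_⟩
  obtain ⟨hn1, b, m, L, M, hb, hm, hmb, hdb, hM, hK, hE, hγn, hc⟩ := H n hn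
  have hcardV : Fintype.card (DV L M) = (L + 2) * (M * M) := by
    simp [DV, Fintype.card_prod]
  obtain ⟨h, hrow, hexp⟩ := hExp (DV L M) n e (8 * b) (by rw [hcardV]; exact hE) he hn1
  have hM1 : 0 < M := by omega
  let z : DV L M := (Fin.last _, ⟨0, hM1⟩, ⟨M - 1, by omega⟩)
  obtain ⟨hup1, hup2, s, π, hup3, hup4, hup5⟩ := hUp (DV L M) n (2 * e + 4) h (dpreds L M) z
    (fun v => v.1.val * M + v.2.2.val) hrow (card_dpreds L M) (rk_dpreds L M)
  refine ⟨FF h (dpreds L M) z, hup1, hup2.trans hc, ⟨s, π, hup3, hup5.trans hc, hup4⟩, ?_⟩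
  intro t ϖ hϖ
  by_contra hcon
  push Not at hcon
  have hsp : ∀ i ≤ t, totalSpace (ϖ i) ≤ b * m := by
    intro i hi
    have h1 := hcon i hi
    have h2 : (totalSpace (ϖ i) : ℝ) < ((b * m : ℕ) : ℝ) := lt_of_lt_of_le h1 hγn
    exact_mod_cast h2.le
  have hCF := hCons (DV L M) n (8 * b) h hexp
  have hRF := hRho (DV L M) n (8 * b) h hexp
  obtain ⟨τ, W, f, a, hsr⟩ := hSem hRes hLoc hVc (DV L M) n (8 * b) b m (2 * e + 4) h
    (dpreds L M) z hCF hRF hrow (card_dpreds L M) hdb hb hm hmb le_rfl t ϖ hϖ hsp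
  obtain ⟨k, cw, hw, hz⟩ := hWalk (DV L M) (dpreds L M) z _ τ W f a hsr
  obtain ⟨k', cw', hk', hw', hz'⟩ := hShort (DV L M) (dpreds L M) z _ k cw hw hz
  have hlong := hLong L M _ k' cw' z hM (by simp [z]) (by simp only [z]; omega) hw' hz'
  rw [hcardV] at hk'
  omega

end Pool.Agent.Helper600R2.TS
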