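import Mathlib

/-!
Superlinear total space for polynomially refutable k-CNFs (MP_f95493_lc).
Basic definitions: resolution, configurations, local linear algebra over F_2.
-/

namespace Pool.Agent.Helper600R2.TS

open Finset

/-! ### Resolution -/

/-- A literal: a variable together with the truth value that makes the literal true. -/
abbrev Lit (N : ℕ) := Fin N × Bool

/-- A clause is a finite set of literals. -/
abbrev Cl (N : ℕ) := Finset (Lit N)

/-- `R = C ∨ D` is obtained from `G = C ∨ x` and `P = D ∨ ¬x`. -/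
def Resolvent {N : ℕ} (G P R : Cl N) : Prop :=
  ∃ (x : Fin N) (C D : Cl N), G = insert (x, true) C ∧ P = insert (x, false) D ∧ R = C ∪ D

/-- The special case of `Resolvent` in which the resolved literals are really removed. -/
def StrictResolvent {N : ℕ} (G P R : Cl N) : Prop :=
  ∃ x : Fin N, (x, true) ∈ G ∧ (x, false) ∈ P ∧ R = G.erase (x, true) ∪ P.erase (x, false)

/-- `π 0, ..., π (s-1)` is a resolution refutation of `F` of size `s`. -/
def IsRefutation {N : ℕ} (F : Finset (Cl N)) (s : ℕ) (π : ℕ → Cl N) : Prop :=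
  0 < s ∧ π (s - 1) = ∅ ∧
    ∀ i < s, π i ∈ F ∨ ∃ j < i, ∃ k < i, StrictResolvent (π j) (π k) (π i)

/-- One step of a space-aware refutation: add a clause of `F`, add a resolvent of two clauses of
the configuration, or delete clauses. -/
def SpaceStep {N : ℕ} (F : Finset (Cl N)) (A B : Finset (Cl N)) : Prop :=
  (∃ C ∈ F, B = insert C A) ∨
  (∃ G ∈ A, ∃ P ∈ A, ∃ R, Resolvent G P R ∧ B = insert R A) ∨ B ⊆ A

/-- `π 0, ..., π t` is a space-aware refutation of `F`. -/
def IsSpaceRefutation {N : ℕ} (F : Finset (Cl N)) (t : ℕ) (π : ℕ → Finset (Cl N)) : Prop :=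
  π 0 = ∅ ∧ ∅ ∈ π t ∧ ∀ i < t, SpaceStep F (π i) (π (i + 1))

/-- Total space of a configuration: number of literal occurrences. -/
def totalSpace {N : ℕ} (A : Finset (Cl N)) : ℕ := ∑ C ∈ A, C.card

/-! ### Local linear algebra over `F_2` -/

section LA

variable {V : Type} [Fintype V] [DecidableEq V] {N : ℕ}

/-- sum of the rows indexed by `S` -/
def hS (h : V → Fin N → ZMod 2) (S : Finset V) (j : Fin N) : ZMod 2 := ∑ u ∈ S, h u j

/-- support of a vector -/
def supp (v : Fin N → ZMod 2) : Finset (Fin N) := univ.filter (fun j => v j ≠ 0)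

/-- every nonempty set of at most `r` rows has a sum of weight at least four times its size -/
def Expands (h : V → Fin N → ZMod 2) (r : ℕ) : Prop :=
  ∀ S : Finset V, S.Nonempty → S.card ≤ r → 4 * S.card ≤ (supp (hS h S)).card

/-- the (small) sets of rows whose sum is supported in `A` -/
def LL (h : V → Fin N → ZMod 2) (r : ℕ) (A : Finset (Fin N)) : Finset (Finset V) :=
  univ.filter (fun S => S.card ≤ r ∧ supp (hS h S) ⊆ A)

/-- `y` restricted to `A` is locally consistent with the outer assignment `χ`. -/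
def Cons (h : V → Fin N → ZMod 2) (r : ℕ) (χ : V → ZMod 2) (A : Finset (Fin N))
    (y : Fin N → ZMod 2) : Prop :=
  ∀ S ∈ LL h r A, ∑ j, hS h S j * y j = ∑ u ∈ S, χ u

/-- the variable `j` is free over `A` -/
def IsFree (h : V → Fin N → ZMod 2) (r : ℕ) (A : Finset (Fin N)) (j : Fin N) : Prop :=
  ∀ S ∈ LL h r (insert j A), hS h S j = 0

/-- local rank: number of free bits -/
def rho (h : V → Fin N → ZMod 2) (r : ℕ) (A : Finset (Fin N)) : ℕ :=
  A.card - Nat.log 2 (LL h r A).card

/-- the outer variables seen by `A` -/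
def UU (h : V → Fin N → ZMod 2) (r : ℕ) (A : Finset (Fin N)) : Finset V :=
  (LL h r A).biUnion id

end LA

/-! ### Clauses and assignments -/

section Clauses

variable {V : Type} [Fintype V] [DecidableEq V] {N : ℕ}

/-- value of a sign -/
def lv (s : Bool) : ZMod 2 := if s then 1 else 0

/-- variables of a clause -/
def vars (C : Cl N) : Finset (Fin N) := C.image Prod.fst

/-- `y` falsifies the clause -/
def Fals (y : Fin N → ZMod 2) (C : Cl N) : Prop := ∀ l ∈ C, y l.1 ≠ lv l.2

/-- some literal of `C` with variable in `A` is true under `y` -/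
def SatIn (y : Fin N → ZMod 2) (A : Finset (Fin N)) (C : Cl N) : Prop :=
  ∃ l ∈ C, l.1 ∈ A ∧ y l.1 = lv l.2

/-- small clauses -/
def Small (h : V → Fin N → ZMod 2) (r b : ℕ) (C : Cl N) : Prop :=
  (vars C).card ≤ 2 * b ∧ rho h r (vars C) ≤ b

/-- no small clause of `D` can be falsified consistently with `χ` -/
def Good1 (h : V → Fin N → ZMod 2) (r b : ℕ) (χ : V → ZMod 2) (D : Finset (Cl N)) : Prop :=
  ∀ G ∈ D, Small h r b G → ∀ y, Cons h r χ (vars G) y → ¬ Fals y G

/-- every small consistent assignment extends to one satisfying all big clauses -/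
def Good2 (h : V → Fin N → ZMod 2) (r b m : ℕ) (χ : V → ZMod 2) (D : Finset (Cl N)) : Prop :=
  ∀ (B : Finset (Fin N)) (y : Fin N → ZMod 2), B.card ≤ 2 * b → rho h r B ≤ b → Cons h r χ B y →
    ∃ (A : Finset (Fin N)) (y' : Fin N → ZMod 2), B ⊆ A ∧ A.card ≤ B.card + m ∧
      (∀ j ∈ B, y' j = y j) ∧ Cons h r χ A y' ∧ ∀ G ∈ D, ¬ Small h r b G → SatIn y' A G

/-- the outer assignment `χ` is good for the configuration `D` -/
def Good (h : V → Fin N → ZMod 2) (r b m : ℕ) (χ : V → ZMod 2) (D : Finset (Cl N)) : Prop :=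
  Good1 h r b χ D ∧ Good2 h r b m χ D

/-- size bound for clusters -/
def R0 (b m : ℕ) : ℕ := 2 * (b + m ^ 2 + m) + 2

open Classical in
/-- the cluster of a big clause -/
noncomputable def YY (h : V → Fin N → ZMod 2) (r b m : ℕ) (D : Finset (Cl N)) (G : Cl N) :
    Finset (Fin N) :=
  vars G ∪ (D.filter (fun G' => ¬ Small h r b G' ∧ (vars G ∪ vars G').card ≤ R0 b m ∧
    rho h r (vars G ∪ vars G') ≤ b + m ^ 2)).biUnion vars

open Classical in
/-- the outer variables on which goodness depends -/
noncomputable def Vset (h : V → Fin N → ZMod 2) (r b m : ℕ) (D : Finset (Cl N)) : Finset V :=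
  (D.filter (fun G => Small h r b G)).biUnion (fun G => UU h r (vars G)) ∪
  (D.filter (fun G => ¬ Small h r b G ∧ (vars G).card ≤ R0 b m ∧
    rho h r (vars G) ≤ b + m ^ 2)).biUnion (fun G => UU h r (YY h r b m D G))

end Clauses

/-! ### Outer formula: pebbling -/

section Outer

variable {V : Type} [Fintype V] [DecidableEq V]

/-- `some v`: if all predecessors of `v` are true then `v` is true; `none`: `z` is false. -/
def AxHolds (preds : V → Finset V) (z : V) (χ : V → ZMod 2) : Option V → Prop
  | some v => (∀ u ∈ preds v, χ u = 1) → χ v = 1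
  | none => χ z = 0

/-- a semantic refutation of the pebbling formula with variable space `s` -/
def SemRef (preds : V → Finset V) (z : V) (s τ : ℕ) (W : ℕ → Finset V)
    (f : ℕ → (V → ZMod 2) → Prop) (a : ℕ → Option (Option V)) : Prop :=
  (∀ χ, f 0 χ) ∧ (∀ χ, ¬ f τ χ) ∧
  (∀ t < τ, ∀ χ, f t χ → (∀ x, a t = some x → AxHolds preds z χ x) → f (t + 1) χ) ∧
  (∀ t ≤ τ, ∀ χ χ', (∀ u ∈ W t, χ u = χ' u) → f t χ → f t χ') ∧
  (∀ t ≤ τ, (W t).card ≤ s)

/-- pebble configurations: (pebbled vertices, black vertices) -/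
abbrev PState (V : Type) := Finset V × Finset V

/-- a move of the black-white pebble game -/
def PStep (preds : V → Finset V) (x y : PState V) : Prop :=
  (∀ v ∈ x.1, v ∉ y.1 → v ∈ x.2 ∨ preds v ⊆ x.1) ∧
  (∀ v ∈ y.2, v ∉ x.2 → preds v ⊆ x.1)

/-- a pebbling of length `k` with at most `s` pebbles -/
def IsWalk (preds : V → Finset V) (s k : ℕ) (c : ℕ → PState V) : Prop :=
  c 0 = (∅, ∅) ∧ c k = (∅, ∅) ∧ (∀ i ≤ k, (c i).1.card ≤ s ∧ (c i).2 ⊆ (c i).1) ∧
  ∀ i < k, PStep preds (c i) (c (i + 1))

/-- vertices of the layered graph: level, chain, position -/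
abbrev DV (L M : ℕ) := Fin (L + 2) × Fin M × Fin M

/-- predecessors: the previous vertex of the chain and the end of chain `l` of the previous
level -/
def dpreds (L M : ℕ) (v : DV L M) : Finset (DV L M) :=
  univ.filter (fun u => (u.1 = v.1 ∧ u.2.1 = v.2.1 ∧ u.2.2.val + 1 = v.2.2.val ∧ 0 < v.1.val) ∨
    (u.1.val + 1 = v.1.val ∧ u.2.1 = v.2.2 ∧ u.2.2.val + 1 = M))

end Outer

/-! ### The inner formula -/

section Formula

variable {V : Type} [Fintype V] [DecidableEq V] {N : ℕ}

/-- the clause excluding the assignment `y` on `Y` -/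
def exc (Y : Finset (Fin N)) (y : Fin N → ZMod 2) : Cl N :=
  Y.image (fun j => (j, decide (y j = 0)))

/-- the inner variables of an outer axiom -/
def YA (h : V → Fin N → ZMod 2) (preds : V → Finset V) (z : V) : Option V → Finset (Fin N)
  | some v => supp (h v) ∪ (preds v).biUnion (fun u => supp (h u))
  | none => supp (h z)

open Classical in
/-- the substituted pebbling formula -/
noncomputable def FF (h : V → Fin N → ZMod 2) (preds : V → Finset V) (z : V) :
    Finset (Cl N) :=
  univ.filter (fun C => ∃ (x : Option V) (y : Fin N → ZMod 2), C = exc (YA h preds z x) y ∧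
    ¬ AxHolds preds z (fun u => ∑ j, h u j * y j) x)

end Formula

end Pool.Agent.Helper600R2.TS
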