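import Pool.Agent.Helper600R2.TS.Stm

namespace Pool.Agent.Helper600R2.TS.T1

open Finset

variable {V : Type} [Fintype V] [DecidableEq V] {N : ℕ}

theorem mem_LL {h : V → Fin N → ZMod 2} {r : ℕ} {A : Finset (Fin N)} {S : Finset V} :
    S ∈ LL h r A ↔ S.card ≤ r ∧ supp (hS h S) ⊆ A := by
  unfold LL
  rw [mem_filter]
  exact ⟨fun h => h.2, fun h => ⟨mem_univ _, h⟩⟩

theorem mem_supp {v : Fin N → ZMod 2} {j : Fin N} : j ∈ supp v ↔ v j ≠ 0 := by
  unfold supp
  rw [mem_filter]
  exact ⟨fun h => h.2, fun h => ⟨mem_univ _, h⟩⟩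

theorem add_self2 (x : ZMod 2) : x + x = 0 := by
  revert x
  decide

theorem eq_one2 (x : ZMod 2) : x ≠ 0 → x = 1 := by
  revert x
  decide

/-- sums over a symmetric difference -/
theorem sum_symm (f : V → ZMod 2) (S T : Finset V) :
    ∑ u ∈ symmDiff S T, f u = ∑ u ∈ S, f u + ∑ u ∈ T, f u := by
  have hd : Disjoint (S \ T) (T \ S) := by
    rw [disjoint_left]
    intro a ha hb
    exact (mem_sdiff.mp hb).2 (mem_sdiff.mp ha).1
  have e : symmDiff S T = (S \ T) ∪ (T \ S) := rfl
  have h1 : ∑ u ∈ S \ T, f u + ∑ u ∈ S ∩ T, f u = ∑ u ∈ S, f u := by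
    rw [add_comm]
    exact sum_inter_add_sum_sdiff S T f
  have h2 : ∑ u ∈ T \ S, f u + ∑ u ∈ S ∩ T, f u = ∑ u ∈ T, f u := by
    rw [add_comm, inter_comm]
    exact sum_inter_add_sum_sdiff T S f
  rw [e, sum_union hd, ← h1, ← h2]
  have := add_self2 (∑ u ∈ S ∩ T, f u)
  linear_combination (-1 : ZMod 2) * this

theorem hS_symm (h : V → Fin N → ZMod 2) (S T : Finset V) (j : Fin N) :
    hS h (symmDiff S T) j = hS h S j + hS h T j := sum_symm (fun u => h u j) S T

theorem card_half {h : V → Fin N → ZMod 2} {r : ℕ} (hE : Expands h r) {A : Finset (Fin N)}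
    (hA : A.card ≤ 2 * r) {S : Finset V} (hS' : S ∈ LL h r A) : 2 * S.card ≤ r := by
  obtain ⟨h1, h2⟩ := mem_LL.mp hS'
  rcases S.eq_empty_or_nonempty with h0 | h0
  · subst h0
    simp
  · have h3 := hE S h0 h1
    have h4 := card_le_card h2
    omega

theorem closure {h : V → Fin N → ZMod 2} {r : ℕ} (hE : Expands h r) {A : Finset (Fin N)}
    (hA : A.card ≤ 2 * r) {S T : Finset V} (h1 : S ∈ LL h r A) (h2 : T ∈ LL h r A) :
    symmDiff S T ∈ LL h r A := by
  rw [mem_LL]
  constructor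
  · have e : symmDiff S T = (S \ T) ∪ (T \ S) := rfl
    have h3 : (symmDiff S T).card ≤ S.card + T.card := by
      rw [e]
      refine (card_union_le _ _).trans ?_
      exact Nat.add_le_add (card_le_card sdiff_subset) (card_le_card sdiff_subset)
    have h4 := card_half hE hA h1
    have h5 := card_half hE hA h2
    omega
  · intro j hj
    rw [mem_supp, hS_symm] at hj
    by_cases h3 : hS h S j = 0
    · by_cases h4 : hS h T j = 0
      · rw [h3, h4] at hj
        simp at hj
      · exact (mem_LL.mp h2).2 (mem_supp.mpr h4)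
    · exact (mem_LL.mp h1).2 (mem_supp.mpr h3)

/-- a set of rows that does not use the new variable -/
theorem mem_of_zero {h : V → Fin N → ZMod 2} {r : ℕ} {A : Finset (Fin N)} {j : Fin N}
    {S : Finset V} (h1 : S ∈ LL h r (insert j A)) (h2 : hS h S j = 0) : S ∈ LL h r A := by
  obtain ⟨h3, h4⟩ := mem_LL.mp h1
  refine mem_LL.mpr ⟨h3, fun i hi => ?_⟩
  rcases mem_insert.mp (h4 hi) with h5 | h5
  · subst h5
    exact absurd h2 (mem_supp.mp hi)
  · exact h5

theorem sum_congr' {h : V → Fin N → ZMod 2} {r : ℕ} {A : Finset (Fin N)} {S : Finset V}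
    (h1 : S ∈ LL h r A) {y y' : Fin N → ZMod 2} (h2 : ∀ j ∈ A, y j = y' j) :
    ∑ j, hS h S j * y j = ∑ j, hS h S j * y' j := by
  refine sum_congr rfl fun j _ => ?_
  by_cases h3 : hS h S j = 0
  · rw [h3, zero_mul, zero_mul]
  · rw [h2 j ((mem_LL.mp h1).2 (mem_supp.mpr h3))]

theorem cons_congr {h : V → Fin N → ZMod 2} {r : ℕ} (χ : V → ZMod 2) (A : Finset (Fin N))
    (y y' : Fin N → ZMod 2) (h1 : ∀ j ∈ A, y j = y' j) (h2 : Cons h r χ A y) :
    Cons h r χ A y' := by
  intro S hS'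
  rw [← sum_congr' hS' h1]
  exact h2 S hS'

theorem step {h : V → Fin N → ZMod 2} {r : ℕ} (hE : Expands h r) (χ : V → ZMod 2)
    (A : Finset (Fin N)) (j : Fin N) (y : Fin N → ZMod 2) (hA : (insert j A).card ≤ 2 * r)
    (hy : Cons h r χ A y) : ∃ y', (∀ i ∈ A, y' i = y i) ∧ Cons h r χ (insert j A) y' := by
  by_cases hj : j ∈ A
  · exact ⟨y, fun _ _ => rfl, by rwa [insert_eq_of_mem hj]⟩
  by_cases hall : ∀ S ∈ LL h r (insert j A), hS h S j = 0
  · exact ⟨y, fun _ _ => rfl, fun S hS' => hy S (mem_of_zero hS' (hall S hS'))⟩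
  push Not at hall
  obtain ⟨S₀, hS₀, h0⟩ := hall
  have h01 := eq_one2 _ h0
  set c : ZMod 2 := (∑ u ∈ S₀, χ u) - ∑ i ∈ univ.erase j, hS h S₀ i * y i with hc
  have hF : ∀ S : Finset V, ∑ i, hS h S i * Function.update y j c i =
      hS h S j * c + ∑ i ∈ univ.erase j, hS h S i * y i := by
    intro S
    rw [← add_sum_erase univ _ (mem_univ j), Function.update_self]
    congr 1
    refine sum_congr rfl fun i hi => ?_
    rw [Function.update_of_ne (ne_of_mem_erase hi)]
  have hF0 : ∑ i, hS h S₀ i * Function.update y j c i = ∑ u ∈ S₀, χ u := by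
    rw [hF, h01, hc]
    ring
  refine ⟨Function.update y j c, fun i hi => ?_, fun S hS' => ?_⟩
  · rw [Function.update_of_ne]
    rintro rfl
    exact hj hi
  have hz : ∀ T ∈ LL h r (insert j A), hS h T j = 0 →
      ∑ i, hS h T i * Function.update y j c i = ∑ u ∈ T, χ u := by
    intro T hT hT0
    have hTA := mem_of_zero hT hT0
    rw [← hy T hTA]
    refine sum_congr' hTA fun i hi => ?_
    rw [Function.update_of_ne]
    rintro rfl
    exact hj hi
  by_cases h1 : hS h S j = 0
  · exact hz S hS' h1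
  · have h11 := eq_one2 _ h1
    have hT := closure hE hA hS' hS₀
    have hT0 : hS h (symmDiff S S₀) j = 0 := by
      rw [hS_symm, h11, h01]
      decide
    have h2 := hz _ hT hT0
    rw [sum_symm χ S S₀] at h2
    have h3 : ∑ i, hS h (symmDiff S S₀) i * Function.update y j c i =
        ∑ i, hS h S i * Function.update y j c i + ∑ i, hS h S₀ i * Function.update y j c i := by
      rw [← sum_add_distrib]
      refine sum_congr rfl fun i _ => ?_
      rw [hS_symm, add_mul]
    rw [h3, hF0] at h2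
    exact add_right_cancel h2

theorem extend {h : V → Fin N → ZMod 2} {r : ℕ} (hE : Expands h r) (χ : V → ZMod 2)
    (D : Finset (Fin N)) : ∀ (A : Finset (Fin N)) (y : Fin N → ZMod 2),
    (A ∪ D).card ≤ 2 * r → Cons h r χ A y →
    ∃ y', (∀ i ∈ A, y' i = y i) ∧ Cons h r χ (A ∪ D) y' := by
  classical
  induction D using Finset.induction_on with
  | empty =>
    intro A y _ hy
    exact ⟨y, fun _ _ => rfl, by rwa [union_empty]⟩
  | insert j D hj ih =>
    intro A y hc hy
    have e : A ∪ insert j D = insert j (A ∪ D) := union_insert j A D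
    rw [e] at hc ⊢
    obtain ⟨y1, h1, h2⟩ := ih A y ((card_le_card (subset_insert _ _)).trans hc) hy
    obtain ⟨y2, h3, h4⟩ := step hE χ (A ∪ D) j y1 hc h2
    exact ⟨y2, fun i hi => (h3 i (mem_union_left _ hi)).trans (h1 i hi), h4⟩

theorem proof_T1 : S_Cons := by
  intro V _ _ N r h hE
  refine ⟨?_, ?_, ?_, ?_, ?_, ?_, ?_, ?_⟩
  · intro χ A B y hAB hB S hS'
    obtain ⟨h1, h2⟩ := mem_LL.mp hS'
    exact hB S (mem_LL.mpr ⟨h1, h2.trans hAB⟩)
  · intro χ A y y' h1 h2
    exact cons_congr χ A y y' h1 h2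
  · intro χ y S hS'
    obtain ⟨h1, h2⟩ := mem_LL.mp hS'
    rcases S.eq_empty_or_nonempty with h0 | h0
    · subst h0
      simp [hS]
    · exfalso
      have h3 := hE S h0 h1
      have h4 := card_le_card h2
      have h5 := card_pos.mpr h0
      simp only [card_empty] at h4
      omega
  · intro χ A B y hAB hB hy
    obtain ⟨y', h1, h2⟩ := extend hE χ B A y (by rwa [union_eq_right.mpr hAB]) hy
    rw [union_eq_right.mpr hAB] at h2
    exact ⟨y', h1, h2⟩
  · intro χ A y j c hj hf hy S hS'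
    have h0 := hf S hS'
    have hSA := mem_of_zero hS' h0
    rw [← hy S hSA]
    refine sum_congr' hSA fun i hi => ?_
    rw [Function.update_of_ne]
    rintro rfl
    exact hj hi
  · intro χ χ' A y y' h1 h2 S hS'
    simp only [mul_add, sum_add_distrib]
    rw [h1 S hS', h2 S hS']
  · intro χ χ' A y h1 h2 S hS'
    rw [h2 S hS']
    refine sum_congr rfl fun u hu => h1 u ?_
    unfold UU
    exact mem_biUnion.mpr ⟨S, hS', hu⟩
  · intro χ A h1 S hS'
    simp only [mul_zero, sum_const_zero]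
    symm
    refine sum_eq_zero fun u hu => h1 u ?_
    unfold UU
    exact mem_biUnion.mpr ⟨S, hS', hu⟩

end Pool.Agent.Helper600R2.TS.T1
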