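import Pool.Agent.Helper600R2.TS.Stm

namespace Pool.Agent.Helper600R2.TS.T10

open Finset Pool.Agent.Helper600R2.TS

/-! counting small sets -/

theorem card_small {α : Type} [Fintype α] [DecidableEq α] (w : ℕ) :
    ((univ : Finset (Finset α)).filter (fun S => S.card ≤ w)).card ≤ (Fintype.card α + 1) ^ w := by
  classical
  let F : (Fin w → Option α) → Finset α := fun g => univ.filter (fun a => ∃ i, g i = some a)
  have hsub : (univ : Finset (Finset α)).filter (fun S => S.card ≤ w) ⊆
      (univ : Finset (Fin w → Option α)).image F := by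
    intro S hS
    simp only [mem_filter, mem_univ, true_and] at hS
    rw [mem_image]
    refine ⟨fun i => S.toList[i.val]?, mem_univ _, ?_⟩
    ext a
    simp only [F, mem_filter, mem_univ, true_and]
    constructor
    · rintro ⟨i, hi⟩
      have := List.mem_of_getElem? hi
      simpa using this
    · intro ha
      have ha' : a ∈ S.toList := by simpa using ha
      obtain ⟨i, hi, hia⟩ := List.getElem_of_mem ha'
      have hlen : S.toList.length = S.card := S.length_toList
      refine ⟨⟨i, by omega⟩, ?_⟩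
      show S.toList[i]? = some a
      rw [List.getElem?_eq_getElem hi, hia]
  refine (card_le_card hsub).trans (card_image_le.trans ?_)
  rw [card_univ, Fintype.card_fun, Fintype.card_option, Fintype.card_fin]

/-! derivations -/

section

variable {N : ℕ}

/-- derivable with all clauses of size at most `K` -/
inductive Dv (F : Finset (Cl N)) (K : ℕ) : Cl N → Prop
  | ax (C : Cl N) : C ∈ F → C.card ≤ K → Dv F K C
  | res (G P R : Cl N) : Dv F K G → Dv F K P → StrictResolvent G P R → R.card ≤ K → Dv F K R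

/-- valid reversed duplicate-free lists -/
def Valid (F : Finset (Cl N)) (K : ℕ) : List (Cl N) → Prop
  | [] => True
  | C :: L => Valid F K L ∧ C ∉ L ∧ C.card ≤ K ∧
      (C ∈ F ∨ ∃ G ∈ L, ∃ P ∈ L, StrictResolvent G P C)

theorem Valid.nodup {F : Finset (Cl N)} {K : ℕ} : ∀ {L : List (Cl N)}, Valid F K L → L.Nodup
  | [], _ => List.nodup_nil
  | C :: L, h => List.nodup_cons.2 ⟨h.2.1, h.1.nodup⟩

theorem Valid.card_le {F : Finset (Cl N)} {K : ℕ} : ∀ {L : List (Cl N)}, Valid F K L →
    ∀ C ∈ L, C.card ≤ K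
  | [], _ => by simp
  | C :: L, h => by
    intro D hD
    rcases List.mem_cons.1 hD with rfl | hD
    · exact h.2.2.1
    · exact h.1.card_le D hD

theorem Valid.length_le {F : Finset (Cl N)} {K : ℕ} {L : List (Cl N)} (h : Valid F K L) :
    L.length ≤ (2 * N + 1) ^ K := by
  classical
  have h1 : L.toFinset ⊆ (univ : Finset (Cl N)).filter (fun S => S.card ≤ K) := by
    intro C hC
    simp only [mem_filter, mem_univ, true_and]
    exact h.card_le C (List.mem_toFinset.1 hC)
  have h2 := card_le_card h1
  rw [List.toFinset_card_of_nodup h.nodup] at h2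
  refine h2.trans ((card_small K).trans ?_)
  rw [Fintype.card_prod, Fintype.card_fin, Fintype.card_bool, mul_comm N 2]

theorem Valid.seq {F : Finset (Cl N)} {K : ℕ} : ∀ {L : List (Cl N)}, Valid F K L →
    ∀ i < L.length, L.reverse.getD i ∅ ∈ F ∨ ∃ j < i, ∃ k < i,
      StrictResolvent (L.reverse.getD j ∅) (L.reverse.getD k ∅) (L.reverse.getD i ∅)
  | [], _ => by simp
  | C :: L, h => by
    have key : ∀ j < L.length, (C :: L).reverse.getD j ∅ = L.reverse.getD j ∅ := by
      intro j hj
      rw [List.reverse_cons, List.getD_append _ _ _ _ (by simpa using hj)]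
    have key2 : (C :: L).reverse.getD L.length ∅ = C := by
      rw [List.reverse_cons, List.getD_append_right _ _ _ _ (by simp)]
      simp
    intro i hi
    rw [List.length_cons] at hi
    rcases Nat.lt_succ_iff_lt_or_eq.1 hi with hi | rfl
    · rcases h.1.seq i hi with h1 | ⟨j, hj, k, hk, h1⟩
      · left; rw [key i hi]; exact h1
      · right
        refine ⟨j, hj, k, hk, ?_⟩
        rw [key i hi, key j (hj.trans hi), key k (hk.trans hi)]
        exact h1
    · rcases h.2.2.2 with h1 | ⟨G, hG, P, hP, h1⟩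
      · left; rw [key2]; exact h1
      · right
        have find : ∀ G ∈ L, ∃ j < L.length, L.reverse.getD j ∅ = G := by
          intro G hG
          have hG' : G ∈ L.reverse := List.mem_reverse.2 hG
          obtain ⟨j, hj, hjG⟩ := List.getElem_of_mem hG'
          refine ⟨j, by simpa using hj, ?_⟩
          rw [List.getD_eq_getElem _ _ hj]
          exact hjG
        obtain ⟨j, hj, hjG⟩ := find G hG
        obtain ⟨k, hk, hkP⟩ := find P hP
        refine ⟨j, hj, k, hk, ?_⟩
        rw [key2, key j hj, key k hk, hjG, hkP]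
        exact h1

theorem Valid.suffix {F : Finset (Cl N)} {K : ℕ} (D : Cl N) : ∀ {L : List (Cl N)}, Valid F K L →
    D ∈ L → ∃ L', Valid F K (D :: L')
  | [], _ => by simp
  | C :: L, h => by
    intro hD
    rcases List.mem_cons.1 hD with rfl | hD
    · exact ⟨L, h⟩
    · exact h.1.suffix D hD

/-- there is a valid list containing all derivable clauses -/
theorem exists_max (F : Finset (Cl N)) (K : ℕ) : ∃ L : List (Cl N), Valid F K L ∧
    ∀ C, Dv F K C → C ∈ L := by
  classical
  -- maximal length
  let P : ℕ → Prop := fun n => ∃ L : List (Cl N), Valid F K L ∧ L.length = n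
  have hP0 : P 0 := ⟨[], trivial, rfl⟩
  have hbd : ∀ n, P n → n ≤ (2 * N + 1) ^ K := by
    rintro n ⟨L, hL, rfl⟩
    exact hL.length_le
  have hspec := Nat.findGreatest_spec (P := P) (m := 0) (n := (2 * N + 1) ^ K) (Nat.zero_le _) hP0
  set n := Nat.findGreatest P ((2 * N + 1) ^ K) with hn
  have hmax : ∀ k, P k → k ≤ n := by
    intro k hk
    exact Nat.le_findGreatest (hbd k hk) hk
  obtain ⟨L, hL, hLn⟩ := hspec
  refine ⟨L, hL, ?_⟩
  intro C hC
  induction hC with
  | ax C h1 h2 =>
    by_contra hcon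
    have : P (C :: L).length := ⟨C :: L, ⟨hL, hcon, h2, Or.inl h1⟩, rfl⟩
    have := hmax _ this
    simp only [List.length_cons] at this
    omega
  | res G Q R _ _ h3 h4 ih1 ih2 =>
    by_contra hcon
    have : P (R :: L).length := ⟨R :: L, ⟨hL, hcon, h4, Or.inr ⟨G, ih1, Q, ih2, h3⟩⟩, rfl⟩
    have := hmax _ this
    simp only [List.length_cons] at this
    omega

theorem refute (F : Finset (Cl N)) (K : ℕ) (h : Dv F K ∅) :
    ∃ (s : ℕ) (π : ℕ → Cl N), IsRefutation F s π ∧ (∀ i < s, (π i).card ≤ K) ∧
    s ≤ (2 * N + 1) ^ K := by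
  obtain ⟨L, hL, hall⟩ := exists_max F K
  obtain ⟨L', hL'⟩ := hL.suffix ∅ (hall _ h)
  refine ⟨(∅ :: L').length, fun i => (∅ :: L').reverse.getD i ∅, ⟨by simp, ?_, hL'.seq⟩, ?_,
    hL'.length_le⟩
  · simp only [List.length_cons, Nat.add_sub_cancel]
    rw [List.reverse_cons, List.getD_append_right _ _ _ _ (by simp)]
    simp
  · intro i hi
    have hi' : i < (∅ :: L').reverse.length := by simpa using hi
    simp only [List.getD_eq_getElem _ _ hi']
    apply hL'.card_le
    exact List.mem_reverse.1 (List.getElem_mem hi')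

/-! completeness -/

theorem mem_exc {Y : Finset (Fin N)} {y : Fin N → ZMod 2} {l : Lit N} :
    l ∈ exc Y y ↔ l.1 ∈ Y ∧ l.2 = decide (y l.1 = 0) := by
  unfold exc
  rw [mem_image]
  constructor
  · rintro ⟨j, hj, rfl⟩; exact ⟨hj, rfl⟩
  · rintro ⟨h1, h2⟩; exact ⟨l.1, h1, by rw [← h2]⟩

theorem exc_mono {Y Z : Finset (Fin N)} (h : Z ⊆ Y) (y : Fin N → ZMod 2) : exc Z y ⊆ exc Y y := by
  intro l hl
  rw [mem_exc] at hl ⊢
  exact ⟨h hl.1, hl.2⟩

theorem exc_congr {Y : Finset (Fin N)} {y y' : Fin N → ZMod 2} (h : ∀ j ∈ Y, y j = y' j) :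
    exc Y y = exc Y y' := by
  ext l
  rw [mem_exc, mem_exc]
  constructor
  · rintro ⟨h1, h2⟩; exact ⟨h1, by rw [h2, h _ h1]⟩
  · rintro ⟨h1, h2⟩; exact ⟨h1, by rw [h2, h _ h1]⟩

theorem card_exc (Y : Finset (Fin N)) (y : Fin N → ZMod 2) : (exc Y y).card ≤ Y.card :=
  card_image_le

theorem exc_insert (Z : Finset (Fin N)) (y : Fin N → ZMod 2) (j : Fin N) (hj : j ∉ Z)
    (c : ZMod 2) :
    exc (insert j Z) (Function.update y j c) = insert (j, decide (c = 0)) (exc Z y) := by
  ext l
  rw [mem_insert, mem_exc, mem_exc, mem_insert]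
  constructor
  · rintro ⟨h1, h2⟩
    by_cases hl : l.1 = j
    · left
      rw [hl, Function.update_self] at h2
      exact Prod.ext hl h2
    · right
      rw [Function.update_of_ne hl] at h2
      exact ⟨h1.resolve_left hl, h2⟩
  · rintro (rfl | ⟨h1, h2⟩)
    · simp
    · have : l.1 ≠ j := fun h => hj (h ▸ h1)
      rw [Function.update_of_ne this]
      exact ⟨Or.inr h1, h2⟩

theorem complete (F : Finset (Cl N)) (K : ℕ) (Y : Finset (Fin N)) (hY : Y.card ≤ K) :
    ∀ (n : ℕ) (Z : Finset (Fin N)) (y₀ : Fin N → ZMod 2), (Y \ Z).card = n → Z ⊆ Y →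
      (∀ y, (∀ j ∈ Z, y j = y₀ j) → ∃ C, Dv F K C ∧ C ⊆ exc Y y) →
      ∃ C, Dv F K C ∧ C ⊆ exc Z y₀ := by
  intro n
  induction n with
  | zero =>
    intro Z y₀ hn hZ H
    have : Y ⊆ Z := by
      rw [card_eq_zero, sdiff_eq_empty_iff_subset] at hn
      exact hn
    have hZY : Z = Y := Subset.antisymm hZ this
    subst hZY
    exact H y₀ (fun _ _ => rfl)
  | succ n ih =>
    intro Z y₀ hn hZ H
    have hne : (Y \ Z).Nonempty := by
      rw [← card_pos]; omega
    obtain ⟨j, hj⟩ := hne
    rw [mem_sdiff] at hj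
    have step : ∀ c : ZMod 2, ∃ C, Dv F K C ∧ C ⊆ insert (j, decide (c = 0)) (exc Z y₀) := by
      intro c
      rw [← exc_insert Z y₀ j hj.2 c]
      apply ih
      · have : Y \ insert j Z = (Y \ Z).erase j := by
          ext x; simp only [mem_sdiff, mem_insert, mem_erase]; tauto
        rw [this, card_erase_of_mem (mem_sdiff.2 hj), hn]
        omega
      · intro x hx
        rcases mem_insert.1 hx with rfl | hx
        · exact hj.1
        · exact hZ hx
      · intro y hy
        apply H y
        intro i hi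
        have hij : i ≠ j := fun h => hj.2 (h ▸ hi)
        have := hy i (mem_insert_of_mem hi)
        rwa [Function.update_of_ne hij] at this
    obtain ⟨C₀, hD₀, hC₀⟩ := step 0
    obtain ⟨C₁, hD₁, hC₁⟩ := step 1
    have e0 : decide ((0 : ZMod 2) = 0) = true := by decide
    have e1 : decide ((1 : ZMod 2) = 0) = false := by decide
    rw [e0] at hC₀
    rw [e1] at hC₁
    by_cases h0 : (j, true) ∈ C₀
    · by_cases h1 : (j, false) ∈ C₁
      · have hsub : C₀.erase (j, true) ∪ C₁.erase (j, false) ⊆ exc Z y₀ := by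
          intro l hl
          rw [mem_union, mem_erase, mem_erase] at hl
          rcases hl with hl | hl
          · exact (mem_insert.1 (hC₀ hl.2)).resolve_left hl.1
          · exact (mem_insert.1 (hC₁ hl.2)).resolve_left hl.1
        refine ⟨_, Dv.res C₀ C₁ _ hD₀ hD₁ ⟨j, h0, h1, rfl⟩ ?_, hsub⟩
        exact ((card_le_card hsub).trans (card_exc _ _)).trans ((card_le_card hZ).trans hY)
      · refine ⟨C₁, hD₁, fun l hl => ?_⟩
        exact (mem_insert.1 (hC₁ hl)).resolve_left (fun h => h1 (h ▸ hl))
    · refine ⟨C₀, hD₀, fun l hl => ?_⟩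
      exact (mem_insert.1 (hC₀ hl)).resolve_left (fun h => h0 (h ▸ hl))

end

section main

variable {V : Type} [Fintype V] [DecidableEq V] {N : ℕ}

theorem card_YA (d : ℕ) (h : V → Fin N → ZMod 2) (preds : V → Finset V) (z : V)
    (hd : ∀ u, (supp (h u)).card ≤ d) (hp : ∀ v, (preds v).card ≤ 2) (x : Option V) :
    (YA h preds z x).card ≤ 3 * d := by
  cases x with
  | none => exact (hd z).trans (by omega)
  | some v =>
    simp only [YA]
    refine (card_union_le _ _).trans ?_
    have h1 : ((preds v).biUnion (fun u => supp (h u))).card ≤ (preds v).card * d :=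
      card_biUnion_le_card_mul _ _ _ (fun u _ => hd u)
    have h2 : (preds v).card * d ≤ 2 * d := Nat.mul_le_mul_right _ (hp v)
    have h3 := hd v
    omega

theorem sum_congr_supp (v : Fin N → ZMod 2) (y y' : Fin N → ZMod 2)
    (h : ∀ j ∈ supp v, y j = y' j) : ∑ j, v j * y j = ∑ j, v j * y' j := by
  refine Finset.sum_congr rfl fun j _ => ?_
  by_cases hj : v j = 0
  · rw [hj, zero_mul, zero_mul]
  · rw [h j (by simp [supp, hj])]

theorem zmod2_ne_zero {a : ZMod 2} (h : a ≠ 0) : a = 1 := by
  revert a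
  decide

theorem vertex (d : ℕ) (h : V → Fin N → ZMod 2) (preds : V → Finset V) (z : V) (rk : V → ℕ)
    (hd : ∀ u, (supp (h u)).card ≤ d) (hp : ∀ v, (preds v).card ≤ 2)
    (hrk : ∀ v, ∀ u ∈ preds v, rk u < rk v) :
    ∀ (n : ℕ) (v : V), rk v = n → ∀ y : Fin N → ZMod 2, ∑ j, h v j * y j = 0 →
      ∃ C, Dv (FF h preds z) (3 * d) C ∧ C ⊆ exc (supp (h v)) y := by
  classical
  intro n
  induction n using Nat.strong_induction_on with
  | _ n ih =>
    intro v hv y hy
    have hcY := card_YA d h preds z hd hp (some v)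
    refine complete (FF h preds z) (3 * d) (YA h preds z (some v)) hcY _ (supp (h v)) y rfl
      (by simp only [YA]; exact subset_union_left) ?_
    intro y' hy'
    have hsum : ∑ j, h v j * y' j = 0 := by
      rw [sum_congr_supp (h v) y' y hy']; exact hy
    by_cases hu : ∃ u ∈ preds v, ∑ j, h u j * y' j = 0
    · obtain ⟨u, hu, hu0⟩ := hu
      obtain ⟨C, hC, hCs⟩ := ih (rk u) (by rw [← hv]; exact hrk v u hu) u rfl y' hu0
      refine ⟨C, hC, hCs.trans (exc_mono ?_ y')⟩
      simp only [YA]
      exact (subset_biUnion_of_mem (fun u => supp (h u)) hu).trans subset_union_right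
    · push Not at hu
      refine ⟨exc (YA h preds z (some v)) y', Dv.ax _ ?_ ((card_exc _ _).trans hcY), Subset.refl _⟩
      unfold FF
      rw [mem_filter]
      refine ⟨mem_univ _, some v, y', rfl, ?_⟩
      simp only [AxHolds]
      intro hcon
      have := hcon (fun u hu' => zmod2_ne_zero (hu u hu'))
      rw [hsum] at this
      exact zero_ne_one this

theorem proof_T10 : S_Upper := by
  classical
  intro V _ _ N d h preds z rk hd hp hrk
  have hcard : ∀ C ∈ FF h preds z, C.card ≤ 3 * d := by
    intro C hC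
    unfold FF at hC
    rw [mem_filter] at hC
    obtain ⟨_, x, y, rfl, _⟩ := hC
    exact (card_exc _ _).trans (card_YA d h preds z hd hp x)
  refine ⟨hcard, ?_, ?_⟩
  · have hsub : FF h preds z ⊆ (univ : Finset (Cl N)).filter (fun S => S.card ≤ 3 * d) := by
      intro C hC
      simp only [mem_filter, mem_univ, true_and]
      exact hcard C hC
    refine (card_le_card hsub).trans ((card_small (3 * d)).trans ?_)
    rw [Fintype.card_prod, Fintype.card_fin, Fintype.card_bool, mul_comm N 2]
  · apply refute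
    obtain ⟨C, hC, hCs⟩ := complete (FF h preds z) (3 * d) (YA h preds z none)
      (card_YA d h preds z hd hp none) _ ∅ (fun _ => 0) rfl (empty_subset _) (by
        intro y _
        by_cases hz : ∑ j, h z j * y j = 0
        · obtain ⟨C, hC, hCs⟩ := vertex d h preds z rk hd hp hrk (rk z) z rfl y hz
          exact ⟨C, hC, hCs⟩
        · refine ⟨exc (YA h preds z none) y, Dv.ax _ ?_ ((card_exc _ _).trans
            (card_YA d h preds z hd hp none)), Subset.refl _⟩
          unfold FF
          rw [mem_filter]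
          exact ⟨mem_univ _, none, y, rfl, hz⟩)
    have : C = ∅ := by
      rw [← subset_empty]
      intro l hl
      have := hCs hl
      rw [mem_exc] at this
      exact absurd this.1 (notMem_empty _)
    rw [← this]
    exact hC

end main

end Pool.Agent.Helper600R2.TS.T10
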