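import Pool.Agent.Helper600R2.TS.Stm

/-! T11: from space-aware refutations to semantic refutations. -/

namespace Pool.Agent.Helper600R2.TS.T11

open Finset

section

variable {V : Type} [Fintype V] [DecidableEq V] {N : ℕ}

lemma vars_card_le (C : Cl N) : (vars C).card ≤ C.card := Finset.card_image_le

lemma small_of_card_le {h : V → Fin N → ZMod 2} {r b : ℕ} (hR : RhoFacts h r) (C : Cl N)
    (hC : C.card ≤ b) : Small h r b C := by
  have h1 := vars_card_le C
  have h2 := hR.le_card (vars C)
  exact ⟨by omega, by omega⟩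

lemma big_count {h : V → Fin N → ZMod 2} {r b m : ℕ} (hR : RhoFacts h r)
    (D : Finset (Cl N)) (hD : totalSpace D ≤ b * m) :
    ∀ E ⊆ D, (∀ G ∈ E, ¬ Small h r b G) → E.card ≤ m := by
  intro E hE hbig
  have h1 : ∀ G ∈ E, b + 1 ≤ G.card := by
    intro G hG
    by_contra hcon
    exact hbig G hG (small_of_card_le hR G (by omega))
  have h2 : E.card * (b + 1) ≤ ∑ G ∈ E, G.card := by
    have := Finset.card_nsmul_le_sum E (fun G => G.card) (b + 1) h1
    simpa [smul_eq_mul] using this
  have h3 : ∑ G ∈ E, G.card ≤ totalSpace D := Finset.sum_le_sum_of_subset hE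
  by_contra hcon
  push Not at hcon
  have h4 : (m + 1) * (b + 1) ≤ E.card * (b + 1) := Nat.mul_le_mul_right _ hcon
  have h5 : (m + 1) * (b + 1) = b * m + m + b + 1 := by ring
  omega

lemma YA_card {h : V → Fin N → ZMod 2} {preds : V → Finset V} {z : V} {d : ℕ}
    (hd : ∀ u, (supp (h u)).card ≤ d) (hp : ∀ v, (preds v).card ≤ 2) (x : Option V) :
    (YA h preds z x).card ≤ 3 * d := by
  cases x with
  | none =>
    have := hd z
    show (supp (h z)).card ≤ 3 * d
    omega
  | some v =>
    show (supp (h v) ∪ (preds v).biUnion (fun u => supp (h u))).card ≤ 3 * d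
    have h1 := Finset.card_union_le (supp (h v)) ((preds v).biUnion (fun u => supp (h u)))
    have h2 : ((preds v).biUnion (fun u => supp (h u))).card ≤ (preds v).card * d :=
      Finset.card_biUnion_le_card_mul _ _ _ (fun u _ => hd u)
    have h3 : (preds v).card * d ≤ 2 * d := Nat.mul_le_mul_right _ (hp v)
    have h4 := hd v
    omega

lemma exc_card (Y : Finset (Fin N)) (y : Fin N → ZMod 2) : (exc Y y).card ≤ Y.card :=
  Finset.card_image_le

lemma vars_exc (Y : Finset (Fin N)) (y : Fin N → ZMod 2) : vars (exc Y y) = Y := by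
  unfold vars exc
  rw [Finset.image_image]
  exact Finset.image_id

lemma zmod2_cases (a : ZMod 2) : a = 0 ∨ a = 1 := by
  revert a; decide

lemma fals_exc {Y : Finset (Fin N)} {y y0 : Fin N → ZMod 2} (hF : Fals y (exc Y y0)) :
    ∀ j ∈ Y, y j = y0 j := by
  intro j hj
  have h1 := hF (j, decide (y0 j = 0)) (Finset.mem_image_of_mem _ hj)
  simp only [lv] at h1
  rcases zmod2_cases (y0 j) with h0 | h0 <;> rcases zmod2_cases (y j) with h2 | h2
  · rw [h0, h2]
  · rw [h0, h2] at h1
    simp at h1
  · rw [h0, h2] at h1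
    simp at h1
  · rw [h0, h2]

lemma outer_val {h : V → Fin N → ZMod 2} {r : ℕ} (hr : 1 ≤ r) {χ : V → ZMod 2}
    {Y : Finset (Fin N)} {y y0 : Fin N → ZMod 2} (hcons : Cons h r χ Y y)
    (heq : ∀ j ∈ Y, y j = y0 j) (u : V) (hu : supp (h u) ⊆ Y) :
    ∑ j, h u j * y0 j = χ u := by
  have hS1 : hS h {u} = h u := by
    funext j
    simp [hS]
  have hmem : ({u} : Finset V) ∈ LL h r Y := by
    unfold LL
    rw [Finset.mem_filter]
    refine ⟨Finset.mem_univ _, ?_, ?_⟩
    · rw [Finset.card_singleton]; exact hr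
    · rw [hS1]; exact hu
  have h1 := hcons {u} hmem
  rw [hS1, Finset.sum_singleton] at h1
  rw [← h1]
  apply Finset.sum_congr rfl
  intro j _
  by_cases hj : h u j = 0
  · rw [hj, zero_mul, zero_mul]
  · have hjs : j ∈ supp (h u) := by
      unfold supp
      rw [Finset.mem_filter]
      exact ⟨Finset.mem_univ _, hj⟩
    rw [heq j (hu hjs)]

lemma ax_transfer {h : V → Fin N → ZMod 2} {preds : V → Finset V} {z : V} {r : ℕ} (hr : 1 ≤ r)
    {χ : V → ZMod 2} {x : Option V} {y y0 : Fin N → ZMod 2}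
    (hcons : Cons h r χ (YA h preds z x) y) (heq : ∀ j ∈ YA h preds z x, y j = y0 j)
    (hax : AxHolds preds z χ x) : AxHolds preds z (fun u => ∑ j, h u j * y0 j) x := by
  cases x with
  | none =>
    have := outer_val hr hcons heq z (Finset.Subset.refl _)
    show ∑ j, h z j * y0 j = 0
    rw [this]
    exact hax
  | some v =>
    have hv := outer_val hr hcons heq v (by
      show supp (h v) ⊆ supp (h v) ∪ (preds v).biUnion (fun u => supp (h u))
      exact Finset.subset_union_left)
    have hu : ∀ u ∈ preds v, ∑ j, h u j * y0 j = χ u := by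
      intro u hu
      apply outer_val hr hcons heq u
      show supp (h u) ⊆ supp (h v) ∪ (preds v).biUnion (fun u => supp (h u))
      exact (Finset.subset_biUnion_of_mem (fun u => supp (h u)) hu).trans
        Finset.subset_union_right
    intro hall
    show ∑ j, h v j * y0 j = 1
    rw [hv]
    apply hax
    intro u hu'
    have h1 := hall u hu'
    rw [← hu u hu']
    exact h1

lemma good_empty {h : V → Fin N → ZMod 2} {r b m : ℕ} (χ : V → ZMod 2) :
    Good h r b m χ (∅ : Finset (Cl N)) := by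
  refine ⟨?_, ?_⟩
  · intro G hG
    exact absurd hG (Finset.notMem_empty _)
  · intro B y _ _ hc
    exact ⟨B, y, Finset.Subset.refl _, Nat.le_add_right _ _, fun _ _ => rfl, hc,
      fun G hG => absurd hG (Finset.notMem_empty _)⟩

lemma good_mono {h : V → Fin N → ZMod 2} {r b m : ℕ} {χ : V → ZMod 2} {D D' : Finset (Cl N)}
    (hsub : D' ⊆ D) (hg : Good h r b m χ D) : Good h r b m χ D' := by
  refine ⟨?_, ?_⟩
  · intro G hG
    exact hg.1 G (hsub hG)
  · intro B y h1 h2 h3
    obtain ⟨A, y', g1, g2, g3, g4, g5⟩ := hg.2 B y h1 h2 h3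
    exact ⟨A, y', g1, g2, g3, g4, fun G hG => g5 G (hsub hG)⟩

lemma good_ax {h : V → Fin N → ZMod 2} {preds : V → Finset V} {z : V} {r b m : ℕ} (hr : 1 ≤ r)
    {χ : V → ZMod 2} {D : Finset (Cl N)} {x : Option V} {y0 : Fin N → ZMod 2}
    (hsm : Small h r b (exc (YA h preds z x) y0))
    (hn : ¬ AxHolds preds z (fun u => ∑ j, h u j * y0 j) x)
    (hax : AxHolds preds z χ x) (hg : Good h r b m χ D) :
    Good h r b m χ (insert (exc (YA h preds z x) y0) D) := by
  refine ⟨?_, ?_⟩
  · intro G hG hs y hc hf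
    rcases Finset.mem_insert.1 hG with rfl | hG
    · rw [vars_exc] at hc
      exact hn (ax_transfer hr hc (fals_exc hf) hax)
    · exact hg.1 G hG hs y hc hf
  · intro B y h1 h2 h3
    obtain ⟨A, y', g1, g2, g3, g4, g5⟩ := hg.2 B y h1 h2 h3
    refine ⟨A, y', g1, g2, g3, g4, fun G hG hns => ?_⟩
    rcases Finset.mem_insert.1 hG with rfl | hG
    · exact absurd hsm hns
    · exact g5 G hG hns

end

theorem proof_T11 : S_Sem := by
  intro hRes hLoc hVc V _ _ N r b m d h preds z hC hR hd hp h3d hb hm hm3 h8 t π hπ hsp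
  classical
  obtain ⟨h0, ht, hstep⟩ := hπ
  have hmm : m ≤ m ^ 3 := Nat.le_self_pow (by norm_num) m
  have hm2 : m ^ 2 ≤ m ^ 3 := Nat.pow_le_pow_right hm (by norm_num)
  have hr : 1 ≤ r := by omega
  have hbig : ∀ i ≤ t, ∀ E ⊆ π i, (∀ G ∈ E, ¬ Small h r b G) → E.card ≤ m :=
    fun i hi => big_count hR (π i) (hsp i hi)
  refine ⟨t, fun i => Vset h r b m (π i), fun i χ => Good h r b m χ (π i),
    fun i => if H : ∃ x : Option V, ∃ y : Fin N → ZMod 2,
      π (i + 1) = insert (exc (YA h preds z x) y) (π i) ∧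
        ¬ AxHolds preds z (fun u => ∑ j, h u j * y j) x then some H.choose else none, ?_⟩
  refine ⟨?_, ?_, ?_, ?_, ?_⟩
  · intro χ
    show Good h r b m χ (π 0)
    rw [h0]
    exact good_empty χ
  · intro χ hg
    have hsm : Small h r b (∅ : Cl N) := small_of_card_le hR ∅ (by simp)
    refine hg.1 ∅ ht hsm (fun _ => 0) ?_ ?_
    · have : vars (∅ : Cl N) = ∅ := by simp [vars]
      rw [this]
      exact hC.empty χ _
    · intro l hl
      exact absurd hl (Finset.notMem_empty _)
  · intro i hi χ hg hax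
    show Good h r b m χ (π (i + 1))
    by_cases H : ∃ x : Option V, ∃ y : Fin N → ZMod 2,
      π (i + 1) = insert (exc (YA h preds z x) y) (π i) ∧
        ¬ AxHolds preds z (fun u => ∑ j, h u j * y j) x
    · have hx := hax H.choose (dif_pos H)
      obtain ⟨y, hy1, hy2⟩ := H.choose_spec
      rw [hy1]
      refine good_ax hr ?_ hy2 hx hg
      apply small_of_card_le hR
      have h1 := exc_card (YA h preds z H.choose) y
      have h2 := YA_card (z := z) hd hp H.choose
      omega
    · rcases hstep i hi with ⟨C, hCF, hB⟩ | ⟨G, hG, P, hP, R, hres, hB⟩ | hsub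
      · exfalso
        apply H
        unfold FF at hCF
        rw [Finset.mem_filter] at hCF
        obtain ⟨-, x, y, hCe, hn⟩ := hCF
        exact ⟨x, y, by rw [hB, hCe], hn⟩
      · have hb1 := hbig (i + 1) (by omega)
        rw [hB] at hb1 ⊢
        exact hRes V N r b m h hC hR (by omega) χ (π i) G P R hG hP hres hb1 hg
      · exact good_mono hsub hg
  · intro i hi χ χ' hχ hg
    refine hLoc V N r b m h hC hR ?_ (π i) (hbig i hi) χ χ' hχ hg
    unfold R0
    omega
  · intro i hi
    exact hVc V N r b m h hR hb hm hm3 h8 (π i) (hsp i hi)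

end Pool.Agent.Helper600R2.TS.T11
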