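import Pool.Agent.Helper600R2.TS.Stm

/-! T12: the numerical choice of parameters -/

namespace Pool.Agent.Helper600R2.TS.T12

open Filter

/-- the walk length condition -/
theorem len_cond (q s x : ℕ) (hq : 6349 ≤ q) (hs : 1 ≤ s) (hx : s ^ 3 ≤ q ^ x)
    (hxq : 18 * (x + 5) + 2 ≤ q) :
    2 * ((q ^ 4 * s + 2) * ((40 * s + 6) * (40 * s + 6)) + 1) ^ (2 * (2 * (4 * s) + 1)) + 1
      < 2 ^ (q ^ 4 * s) := by
  have hq1 : 1 ≤ q := by omega
  have hq4 : 1 ≤ q ^ 4 := Nat.one_le_pow _ _ hq1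
  have h1 : (q ^ 4 * s + 2) * ((40 * s + 6) * (40 * s + 6)) + 1 ≤ 6349 * (q ^ 4 * s ^ 3) := by
    have a1 : q ^ 4 * s + 2 ≤ 3 * (q ^ 4 * s) := by nlinarith
    have a2 : 40 * s + 6 ≤ 46 * s := by omega
    have a3 : (q ^ 4 * s + 2) * ((40 * s + 6) * (40 * s + 6)) ≤
        (3 * (q ^ 4 * s)) * ((46 * s) * (46 * s)) :=
      Nat.mul_le_mul a1 (Nat.mul_le_mul a2 a2)
    have a4 : 1 ≤ q ^ 4 * s ^ 3 := Nat.mul_pos hq4 (Nat.one_le_pow _ _ hs)
    calc _ ≤ (3 * (q ^ 4 * s)) * ((46 * s) * (46 * s)) + q ^ 4 * s ^ 3 := by omega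
      _ = 6349 * (q ^ 4 * s ^ 3) := by ring
  have h2 : 6349 * (q ^ 4 * s ^ 3) ≤ q ^ (x + 5) := by
    calc 6349 * (q ^ 4 * s ^ 3) ≤ q * (q ^ 4 * q ^ x) :=
          Nat.mul_le_mul hq (Nat.mul_le_mul_left _ hx)
      _ = q ^ (x + 5) := by ring
  have h3 : 2 * (2 * (4 * s) + 1) ≤ 18 * s := by omega
  have h4 : ((q ^ 4 * s + 2) * ((40 * s + 6) * (40 * s + 6)) + 1) ^ (2 * (2 * (4 * s) + 1)) ≤
      q ^ ((x + 5) * (18 * s)) := by
    calc _ ≤ (q ^ (x + 5)) ^ (2 * (2 * (4 * s) + 1)) := Nat.pow_le_pow_left (h1.trans h2) _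
      _ ≤ (q ^ (x + 5)) ^ (18 * s) :=
          Nat.pow_le_pow_right (Nat.one_le_pow _ _ hq1) h3
      _ = q ^ ((x + 5) * (18 * s)) := by rw [← pow_mul]
  have h5 : 1 ≤ q ^ ((x + 5) * (18 * s)) := Nat.one_le_pow _ _ hq1
  have h6 : q < 2 ^ q := Nat.lt_two_pow_self
  calc 2 * ((q ^ 4 * s + 2) * ((40 * s + 6) * (40 * s + 6)) + 1) ^ (2 * (2 * (4 * s) + 1)) + 1
      ≤ 3 * q ^ ((x + 5) * (18 * s)) := by omega
    _ ≤ q * q ^ ((x + 5) * (18 * s)) := Nat.mul_le_mul_right _ (by omega)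
    _ = q ^ ((x + 5) * (18 * s) + 1) := by ring
    _ ≤ (2 ^ q) ^ ((x + 5) * (18 * s) + 1) := Nat.pow_le_pow_left h6.le _
    _ = 2 ^ (q * ((x + 5) * (18 * s) + 1)) := by rw [← pow_mul]
    _ < 2 ^ (q ^ 4 * s) := by
        apply Nat.pow_lt_pow_right (by norm_num)
        have b1 : (x + 5) * (18 * s) + 1 < q * s := by nlinarith
        have b2 : q * ((x + 5) * (18 * s) + 1) < q * (q * s) := Nat.mul_lt_mul_of_pos_left b1 hq1
        have b3 : q * (q * s) ≤ q ^ 4 * s := by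
          have : q ^ 4 * s = q * (q * s) * (q * q) := by ring
          rw [this]
          exact Nat.le_mul_of_pos_right _ (Nat.mul_pos hq1 hq1)
        omega

/-- the expander condition -/
theorem exp_cond (q a : ℕ) (hq : 1 ≤ q)
    (hC : 4 * 6348 * 2 ^ (2 * (4 * (a + 1)) + 4) *
      ((2 * (4 * (a + 1)) + 4) * 8) ^ (4 * (a + 1)) ≤ q) :
    4 * ((q ^ 4 * q ^ (4 * a) + 2) * ((40 * q ^ (4 * a) + 6) * (40 * q ^ (4 * a) + 6))) *
      2 ^ (2 * (4 * (a + 1)) + 4) *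
      ((2 * (4 * (a + 1)) + 4) * (8 * q ^ (3 * a))) ^ (4 * (a + 1)) ≤
        (q ^ (3 * a + 3)) ^ (4 * (a + 1)) := by
  set s := q ^ (4 * a) with hs
  set e := 4 * (a + 1) with he
  set K := 2 ^ (2 * e + 4) with hK
  have hs1 : 1 ≤ s := Nat.one_le_pow _ _ hq
  have hq4 : 1 ≤ q ^ 4 := Nat.one_le_pow _ _ hq
  have a1 : q ^ 4 * s + 2 ≤ 3 * (q ^ 4 * s) := by nlinarith
  have a2 : 40 * s + 6 ≤ 46 * s := by omega
  have a3 : (q ^ 4 * s + 2) * ((40 * s + 6) * (40 * s + 6)) ≤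
      (3 * (q ^ 4 * s)) * ((46 * s) * (46 * s)) :=
    Nat.mul_le_mul a1 (Nat.mul_le_mul a2 a2)
  have e1 : ((2 * e + 4) * (8 * q ^ (3 * a))) ^ e = ((2 * e + 4) * 8) ^ e * (q ^ (3 * a)) ^ e := by
    rw [← mul_pow]
    congr 1
    ring
  have e2 : (q ^ (3 * a + 3)) ^ e = (q ^ (3 * a)) ^ e * (q ^ 3) ^ e := by
    rw [← mul_pow, ← pow_add]
  have e3 : (q ^ 3) ^ e = q ^ 8 * (q ^ 4 * s ^ 3) := by
    rw [hs, he]
    ring
  rw [e1, e2, e3]
  calc 4 * ((q ^ 4 * s + 2) * ((40 * s + 6) * (40 * s + 6))) * K *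
        (((2 * e + 4) * 8) ^ e * (q ^ (3 * a)) ^ e)
      ≤ 4 * ((3 * (q ^ 4 * s)) * ((46 * s) * (46 * s))) * K *
        (((2 * e + 4) * 8) ^ e * (q ^ (3 * a)) ^ e) :=
        Nat.mul_le_mul_right _ (Nat.mul_le_mul_right _ (Nat.mul_le_mul_left _ a3))
    _ = (4 * 6348 * K * ((2 * e + 4) * 8) ^ e) * ((q ^ (3 * a)) ^ e * (q ^ 4 * s ^ 3)) := by ring
    _ ≤ q ^ 8 * ((q ^ (3 * a)) ^ e * (q ^ 4 * s ^ 3)) := by
        apply Nat.mul_le_mul_right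
        refine hC.trans ?_
        calc q = q ^ 1 := (pow_one q).symm
          _ ≤ q ^ 8 := Nat.pow_le_pow_right hq (by norm_num)
    _ = (q ^ (3 * a)) ^ e * (q ^ 8 * (q ^ 4 * s ^ 3)) := by ring

theorem proof_T12 : S_Num := by
  intro γ0 hγ0
  set γ := max γ0 (1 / 2) with hγdef
  have hγ : γ < 4 / 3 := max_lt hγ0 (by norm_num)
  have hγpos : 0 < γ := lt_of_lt_of_le (by norm_num) (le_max_right γ0 (1 / 2))
  have hden : 0 < 4 - 3 * γ := by linarith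
  obtain ⟨a, ha⟩ := exists_nat_gt (3 * γ / (4 - 3 * γ))
  have ha0 : (0 : ℝ) < a := lt_of_le_of_lt (by positivity) ha
  have ha1 : 1 ≤ a := by
    have : 0 < a := by exact_mod_cast ha0
    omega
  have hδ : 0 < 4 * (a : ℝ) - (3 * a + 3) * γ := by
    rw [div_lt_iff₀ hden] at ha
    linarith
  set e := 4 * (a + 1) with he
  set C1 := 4 * 6348 * 2 ^ (2 * (4 * (a + 1)) + 4) *
      ((2 * (4 * (a + 1)) + 4) * 8) ^ (4 * (a + 1)) with hC1
  -- the asymptotic condition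
  have hev : ∀ᶠ q : ℕ in atTop, (2 : ℝ) ^ ((3 * (a : ℝ) + 3) * γ) ≤
      (q : ℝ) ^ (4 * (a : ℝ) - (3 * a + 3) * γ) :=
    ((tendsto_rpow_atTop hδ).comp tendsto_natCast_atTop_atTop).eventually_ge_atTop _
  obtain ⟨Q1, hQ1⟩ := eventually_atTop.1 hev
  set Q0 := Q1 + C1 + 6349 + (18 * (12 * a + 5) + 2) + 3 * (2 * e + 4) with hQ0
  have hQ01 : 1 ≤ Q0 := by omega
  refine ⟨e, 2 * (3 * (2 * e + 4)), Q0 ^ (3 * a + 3) + 3, by omega, ?_⟩
  intro N hN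
  have hN3 : 3 ≤ N := by omega
  refine ⟨by omega, ?_⟩
  -- choice of `q`
  set q := Nat.findGreatest (fun q => q ^ (3 * a + 3) ≤ N) N with hq
  have hq1 : q ^ (3 * a + 3) ≤ N :=
    Nat.findGreatest_spec (P := fun q => q ^ (3 * a + 3) ≤ N) (Nat.zero_le N)
      (by simp)
  have hQ0N : Q0 ≤ N := by
    calc Q0 = Q0 ^ 1 := (pow_one _).symm
      _ ≤ Q0 ^ (3 * a + 3) := Nat.pow_le_pow_right hQ01 (by omega)
      _ ≤ N := by omega
  have hqQ : Q0 ≤ q := Nat.le_findGreatest hQ0N (by omega)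
  have hq2 : N < (q + 1) ^ (3 * a + 3) := by
    rcases le_or_gt (q + 1) N with hc | hc
    · have := Nat.findGreatest_is_greatest (P := fun q => q ^ (3 * a + 3) ≤ N)
        (n := N) (k := q + 1) (Nat.lt_succ_self q) hc
      exact not_le.1 this
    · calc N < q + 1 := hc
        _ = (q + 1) ^ 1 := (pow_one _).symm
        _ ≤ (q + 1) ^ (3 * a + 3) := Nat.pow_le_pow_right (by omega) (by omega)
  have hqpos : 1 ≤ q := by omega
  have hbm : q ^ (3 * a) * q ^ a = q ^ (4 * a) := by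
    rw [← pow_add]
    congr 1
    ring
  refine ⟨q ^ (3 * a), q ^ a, q ^ 4 * q ^ (4 * a), 40 * q ^ (4 * a) + 6, Nat.one_le_pow _ _ hqpos,
    Nat.one_le_pow _ _ hqpos, ?_, ?_, ?_, ?_, ?_, ?_, ?_⟩
  · rw [← pow_mul, mul_comm a 3]
  · calc 3 * (2 * e + 4) ≤ q := by omega
      _ = q ^ 1 := (pow_one q).symm
      _ ≤ q ^ (3 * a) := Nat.pow_le_pow_right hqpos (by omega)
  · rw [hbm]
    omega
  · rw [hbm]
    apply len_cond q (q ^ (4 * a)) (12 * a) (by omega) (Nat.one_le_pow _ _ hqpos)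
    · rw [← pow_mul]
      apply le_of_eq
      congr 1
      ring
    · omega
  · refine (exp_cond q a hqpos (by omega)).trans ?_
    exact Nat.pow_le_pow_left hq1 _
  · have hNpos : (1 : ℝ) ≤ N := by exact_mod_cast (by omega : 1 ≤ N)
    have hqpos' : (0 : ℝ) < q := by exact_mod_cast hqpos
    have b1 : (N : ℝ) ^ γ0 ≤ (N : ℝ) ^ γ := Real.rpow_le_rpow_of_exponent_le hNpos (le_max_left _ _)
    have b2 : (N : ℝ) ≤ (2 * (q : ℝ)) ^ (3 * (a : ℝ) + 3) := by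
      have c1 : (N : ℝ) ≤ ((q : ℝ) + 1) ^ (3 * a + 3) := by
        have := hq2.le
        exact_mod_cast this
      have c2 : ((q : ℝ) + 1) ^ (3 * a + 3) ≤ (2 * (q : ℝ)) ^ (3 * a + 3) := by
        apply pow_le_pow_left₀ (by positivity)
        have : (1 : ℝ) ≤ q := by exact_mod_cast hqpos
        linarith
      have c3 : (2 * (q : ℝ)) ^ (3 * (a : ℝ) + 3) = (2 * (q : ℝ)) ^ (3 * a + 3) := by
        rw [← Real.rpow_natCast]
        congr 1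
        push_cast
        ring
      rw [c3]
      exact c1.trans c2
    have b3 : (N : ℝ) ^ γ ≤ (2 * (q : ℝ)) ^ ((3 * (a : ℝ) + 3) * γ) := by
      rw [Real.rpow_mul (by positivity)]
      exact Real.rpow_le_rpow (by positivity) b2 hγpos.le
    have b4 := hQ1 q (by omega)
    have b5 : (2 * (q : ℝ)) ^ ((3 * (a : ℝ) + 3) * γ) ≤ (q : ℝ) ^ (4 * (a : ℝ)) := by
      rw [Real.mul_rpow (by norm_num) hqpos'.le]
      calc (2 : ℝ) ^ ((3 * (a : ℝ) + 3) * γ) * (q : ℝ) ^ ((3 * (a : ℝ) + 3) * γ)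
          ≤ (q : ℝ) ^ (4 * (a : ℝ) - (3 * a + 3) * γ) * (q : ℝ) ^ ((3 * (a : ℝ) + 3) * γ) :=
            mul_le_mul_of_nonneg_right b4 (by positivity)
        _ = (q : ℝ) ^ (4 * (a : ℝ)) := by
            rw [← Real.rpow_add hqpos']
            congr 1
            ring
    have b6 : (q : ℝ) ^ (4 * (a : ℝ)) = ((q ^ (3 * a) * q ^ a : ℕ) : ℝ) := by
      rw [hbm]
      push_cast
      rw [← Real.rpow_natCast]
      congr 1
      push_cast
      ring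
    rw [← b6]
    exact (b1.trans b3).trans b5
  · rw [pow_mul N 2]
    apply Nat.pow_le_pow_left
    nlinarith

end Pool.Agent.Helper600R2.TS.T12
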