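import Pool.Agent.Helper600R2.TS.Stm

/-!
T2: facts about the local rank.
-/

namespace Pool.Agent.Helper600R2.TS.T2

open Finset Pool.Agent.Helper600R2.TS

open scoped symmDiff

set_option linter.unusedSectionVars false

section

variable {V : Type} [Fintype V] [DecidableEq V] {N : ℕ}

theorem hS_symmDiff (h : V → Fin N → ZMod 2) (S S' : Finset V) (j : Fin N) :
    hS h (S ∆ S') j = hS h S j + hS h S' j := by
  unfold hS
  have e : ∀ T : Finset V, ∑ u ∈ T, h u j = ∑ u, if u ∈ T then h u j else 0 := by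
    intro T
    rw [Finset.sum_ite_mem, Finset.univ_inter]
  rw [e, e S, e S', ← Finset.sum_add_distrib]
  refine Finset.sum_congr rfl fun u _ => ?_
  have h2 : h u j + h u j = 0 := CharTwo.add_self_eq_zero _
  by_cases h3 : u ∈ S <;> by_cases h4 : u ∈ S' <;> simp [Finset.mem_symmDiff, h3, h4, h2]

theorem mem_LL {h : V → Fin N → ZMod 2} {r : ℕ} {A : Finset (Fin N)} {S : Finset V} :
    S ∈ LL h r A ↔ S.card ≤ r ∧ ∀ j, hS h S j ≠ 0 → j ∈ A := by
  unfold LL supp
  rw [Finset.mem_filter]
  simp only [Finset.mem_univ, true_and]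
  refine and_congr_right fun _ => ?_
  constructor
  · intro h1 j hj
    exact h1 (Finset.mem_filter.2 ⟨Finset.mem_univ _, hj⟩)
  · intro h1 j hj
    exact h1 j (Finset.mem_filter.1 hj).2

theorem LL_mono {h : V → Fin N → ZMod 2} {r : ℕ} {A B : Finset (Fin N)} (hAB : A ⊆ B) :
    LL h r A ⊆ LL h r B := by
  intro S hS
  rw [mem_LL] at hS ⊢
  exact ⟨hS.1, fun j hj => hAB (hS.2 j hj)⟩

theorem card_le_of_mem {h : V → Fin N → ZMod 2} {r : ℕ} (hE : Expands h r)
    {A : Finset (Fin N)} {S : Finset V} (hS' : S ∈ LL h r A) : 4 * S.card ≤ A.card := by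
  rcases Finset.eq_empty_or_nonempty S with rfl | hne
  · simp
  · rw [LL, Finset.mem_filter] at hS'
    exact (hE S hne hS'.2.1).trans (Finset.card_le_card hS'.2.2)

theorem symm_mem {h : V → Fin N → ZMod 2} {r : ℕ} (hE : Expands h r)
    {A : Finset (Fin N)} (hA : A.card ≤ 2 * r) {S S' : Finset V} (h1 : S ∈ LL h r A)
    (h2 : S' ∈ LL h r A) : S ∆ S' ∈ LL h r A := by
  have c1 := card_le_of_mem hE h1
  have c2 := card_le_of_mem hE h2
  rw [mem_LL] at h1 h2 ⊢
  constructor
  · have : (S ∆ S').card ≤ S.card + S'.card :=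
      (Finset.card_le_card (fun x hx => by
        rw [Finset.mem_symmDiff] at hx
        rw [Finset.mem_union]
        tauto)).trans (Finset.card_union_le S S')
    omega
  · intro j hj
    rw [hS_symmDiff] at hj
    by_cases h3 : hS h S j = 0
    · rw [h3, zero_add] at hj
      exact h2.2 j hj
    · exact h1.2 j h3

/-- an involution exchanging `P` and its negation -/
theorem half_count {L : Finset (Finset V)} {S0 : Finset V}
    (hcl : ∀ S ∈ L, S ∆ S0 ∈ L) (P : Finset V → Prop) [DecidablePred P]
    (hP : ∀ S ∈ L, P (S ∆ S0) ↔ ¬ P S) : 2 * (L.filter P).card = L.card := by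
  have h1 : (L.filter P).card = (L.filter (fun S => ¬ P S)).card := by
    refine Finset.card_nbij' (fun S => S ∆ S0) (fun S => S ∆ S0) ?_ ?_ ?_ ?_
    · intro S hS
      simp only [Finset.coe_filter, Set.mem_ofPred_eq] at hS ⊢
      refine ⟨hcl S hS.1, fun h => (hP S hS.1).1 h hS.2⟩
    · intro S hS
      simp only [Finset.coe_filter, Set.mem_ofPred_eq] at hS ⊢
      exact ⟨hcl S hS.1, (hP S hS.1).2 hS.2⟩
    · intro S _
      simp
    · intro S _
      simp
  have h2 := Finset.card_filter_add_card_filter_not (s := L) P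
  omega

theorem LL_free {h : V → Fin N → ZMod 2} {r : ℕ} {A : Finset (Fin N)} {j : Fin N}
    (hf : IsFree h r A j) : LL h r (insert j A) = LL h r A := by
  refine Finset.Subset.antisymm ?_ (LL_mono (Finset.subset_insert _ _))
  intro S hS'
  have h0 := hf S hS'
  rw [mem_LL] at hS' ⊢
  refine ⟨hS'.1, fun i hi => ?_⟩
  rcases Finset.mem_insert.1 (hS'.2 i hi) with rfl | h1
  · exact absurd h0 hi
  · exact h1

theorem LL_not_free {h : V → Fin N → ZMod 2} {r : ℕ} (hE : Expands h r) {A : Finset (Fin N)}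
    {j : Fin N} (hj : j ∉ A) (hA : (insert j A).card ≤ 2 * r) (hf : ¬ IsFree h r A j) :
    (LL h r (insert j A)).card = 2 * (LL h r A).card := by
  unfold IsFree at hf
  push Not at hf
  obtain ⟨S0, hS0, hS0j⟩ := hf
  have z2 : ∀ x : ZMod 2, x ≠ 0 → x = 1 := by decide
  have hS0j' := z2 _ hS0j
  have h1 := half_count (L := LL h r (insert j A)) (S0 := S0)
    (fun S hS => symm_mem hE hA hS hS0) (fun S => hS h S j = 0) (fun S _ => by
      rw [hS_symmDiff, hS0j']
      have : ∀ x : ZMod 2, x + 1 = 0 ↔ ¬ x = 0 := by decide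
      exact this _)
  have h2 : (LL h r (insert j A)).filter (fun S => hS h S j = 0) = LL h r A := by
    ext S
    rw [Finset.mem_filter, mem_LL, mem_LL]
    constructor
    · rintro ⟨⟨h3, h4⟩, h5⟩
      refine ⟨h3, fun i hi => ?_⟩
      rcases Finset.mem_insert.1 (h4 i hi) with rfl | h6
      · exact absurd h5 hi
      · exact h6
    · rintro ⟨h3, h4⟩
      refine ⟨⟨h3, fun i hi => Finset.mem_insert_of_mem (h4 i hi)⟩, ?_⟩
      by_contra h5
      exact hj (h4 j h5)
  rw [h2] at h1
  exact h1.symm

theorem empty_mem (h : V → Fin N → ZMod 2) (r : ℕ) (A : Finset (Fin N)) : ∅ ∈ LL h r A := by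
  rw [mem_LL]
  refine ⟨by simp, fun j hj => ?_⟩
  simp [hS] at hj

theorem LL_pos (h : V → Fin N → ZMod 2) (r : ℕ) (A : Finset (Fin N)) : 0 < (LL h r A).card :=
  Finset.card_pos.2 ⟨∅, empty_mem h r A⟩

theorem pow_two {h : V → Fin N → ZMod 2} {r : ℕ} (hE : Expands h r) (A : Finset (Fin N)) :
    A.card ≤ 2 * r → ∃ k, (LL h r A).card = 2 ^ k := by
  induction A using Finset.induction_on with
  | empty =>
    intro _
    refine ⟨0, ?_⟩
    rw [pow_zero, Finset.card_eq_one]
    refine ⟨∅, ?_⟩
    ext S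
    rw [Finset.mem_singleton]
    constructor
    · intro hS'
      have := card_le_of_mem hE hS'
      rw [Finset.card_empty] at this
      exact Finset.card_eq_zero.1 (by omega)
    · rintro rfl
      exact empty_mem h r _
  | insert j A hj ih =>
    intro hA
    obtain ⟨k, hk⟩ := ih ((Finset.card_le_card (Finset.subset_insert _ _)).trans hA)
    by_cases hf : IsFree h r A j
    · exact ⟨k, by rw [LL_free hf, hk]⟩
    · exact ⟨k + 1, by rw [LL_not_free hE hj hA hf, hk, pow_succ]; ring⟩

theorem UU_card {h : V → Fin N → ZMod 2} {r : ℕ} (hE : Expands h r) (A : Finset (Fin N))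
    (hA : A.card ≤ 2 * r) : 2 * (UU h r A).card ≤ A.card := by
  have h1 : ∑ S ∈ LL h r A, S.card = ∑ u ∈ UU h r A, ((LL h r A).filter (fun S => u ∈ S)).card := by
    have e1 : ∀ S ∈ LL h r A, S.card = ((UU h r A).filter (fun u => u ∈ S)).card := by
      intro S hS'
      congr 1
      ext u
      rw [Finset.mem_filter]
      constructor
      · intro hu
        exact ⟨Finset.mem_biUnion.2 ⟨S, hS', hu⟩, hu⟩
      · exact fun hu => hu.2
    rw [Finset.sum_congr rfl e1]
    exact Finset.sum_card_bipartiteAbove_eq_sum_card_bipartiteBelow (fun S u => u ∈ S)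
  have h2 : ∀ u ∈ UU h r A, 2 * ((LL h r A).filter (fun S => u ∈ S)).card = (LL h r A).card := by
    intro u hu
    obtain ⟨S0, hS0, hu0⟩ := Finset.mem_biUnion.1 hu
    refine half_count (S0 := S0) (fun S hS => symm_mem hE hA hS hS0) (fun S => u ∈ S)
      (fun S _ => ?_)
    rw [Finset.mem_symmDiff]
    have : u ∈ S0 := hu0
    tauto
  have h3 : 2 * ∑ S ∈ LL h r A, S.card = (UU h r A).card * (LL h r A).card := by
    rw [h1, Finset.mul_sum, Finset.sum_congr rfl h2, Finset.sum_const, smul_eq_mul]
  have h4 : 4 * ∑ S ∈ LL h r A, S.card ≤ (LL h r A).card * A.card := by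
    rw [Finset.mul_sum]
    refine (Finset.sum_le_sum fun S hS => card_le_of_mem hE hS).trans ?_
    rw [Finset.sum_const, smul_eq_mul]
  have h5 := LL_pos h r A
  nlinarith

theorem log_le {h : V → Fin N → ZMod 2} {r : ℕ} (hE : Expands h r) (A : Finset (Fin N))
    (hA : A.card ≤ 2 * r) : 2 * Nat.log 2 (LL h r A).card ≤ A.card := by
  have h1 : (LL h r A).card ≤ 2 ^ (UU h r A).card := by
    rw [← Finset.card_powerset]
    refine Finset.card_le_card fun S hS => ?_
    rw [Finset.mem_powerset]
    exact fun u hu => Finset.mem_biUnion.2 ⟨S, hS, hu⟩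
  have h2 : Nat.log 2 (LL h r A).card ≤ (UU h r A).card := by
    have := Nat.log_mono_right (b := 2) h1
    rwa [Nat.log_pow (by norm_num)] at this
  have := UU_card hE A hA
  omega

theorem rho_free {h : V → Fin N → ZMod 2} {r : ℕ} (hE : Expands h r) {A : Finset (Fin N)}
    {j : Fin N} (hj : j ∉ A) (hA : (insert j A).card ≤ 2 * r) (hf : IsFree h r A j) :
    rho h r (insert j A) = rho h r A + 1 := by
  unfold rho
  rw [LL_free hf]
  have h1 := log_le hE A ((Finset.card_le_card (Finset.subset_insert _ _)).trans hA)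
  rw [Finset.card_insert_of_notMem hj]
  omega

theorem rho_not_free {h : V → Fin N → ZMod 2} {r : ℕ} (hE : Expands h r) {A : Finset (Fin N)}
    {j : Fin N} (hj : j ∉ A) (hA : (insert j A).card ≤ 2 * r) (hf : ¬ IsFree h r A j) :
    rho h r (insert j A) = rho h r A := by
  unfold rho
  obtain ⟨k, hk⟩ := pow_two hE A ((Finset.card_le_card (Finset.subset_insert _ _)).trans hA)
  rw [LL_not_free hE hj hA hf, hk, Finset.card_insert_of_notMem hj]
  have : 2 * 2 ^ k = 2 ^ (k + 1) := by ring
  rw [this, Nat.log_pow (by norm_num), Nat.log_pow (by norm_num)]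
  omega

theorem anti {h : V → Fin N → ZMod 2} {r : ℕ} {A B : Finset (Fin N)} {j : Fin N} (hAB : A ⊆ B)
    (hf : IsFree h r B j) : IsFree h r A j :=
  fun S hS => hf S (LL_mono (Finset.insert_subset_insert _ hAB) hS)

/-- adding one element -/
theorem step {h : V → Fin N → ZMod 2} {r : ℕ} (hE : Expands h r) (A : Finset (Fin N))
    (j : Fin N) (hA : (insert j A).card ≤ 2 * r) :
    rho h r A ≤ rho h r (insert j A) ∧ rho h r (insert j A) ≤ rho h r A + 1 := by
  by_cases hj : j ∈ A
  · rw [Finset.insert_eq_of_mem hj]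
    omega
  · by_cases hf : IsFree h r A j
    · rw [rho_free hE hj hA hf]
      omega
    · rw [rho_not_free hE hj hA hf]
      omega

theorem two_sided {h : V → Fin N → ZMod 2} {r : ℕ} (hE : Expands h r) (A Z : Finset (Fin N)) :
    (A ∪ Z).card ≤ 2 * r →
      rho h r A ≤ rho h r (A ∪ Z) ∧ rho h r (A ∪ Z) ≤ rho h r A + Z.card := by
  induction Z using Finset.induction_on with
  | empty => intro _; simp
  | insert j Z hj ih =>
    intro hA
    rw [Finset.union_insert] at hA ⊢
    have h1 := ih ((Finset.card_le_card (Finset.subset_insert _ _)).trans hA)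
    have h2 := step hE (A ∪ Z) j hA
    rw [Finset.card_insert_of_notMem hj]
    omega

theorem submod {h : V → Fin N → ZMod 2} {r : ℕ} (hE : Expands h r) {A B : Finset (Fin N)}
    (hAB : A ⊆ B) (Y : Finset (Fin N)) : (B ∪ Y).card ≤ 2 * r →
      rho h r (B ∪ Y) + rho h r A ≤ rho h r (A ∪ Y) + rho h r B := by
  induction Y using Finset.induction_on with
  | empty => intro _; simp [add_comm]
  | insert y Y hy ih =>
    intro hB
    rw [Finset.union_insert] at hB ⊢
    rw [Finset.union_insert]
    have h1 := ih ((Finset.card_le_card (Finset.subset_insert _ _)).trans hB)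
    have hsub : A ∪ Y ⊆ B ∪ Y := Finset.union_subset_union_left hAB
    have hA : (insert y (A ∪ Y)).card ≤ 2 * r :=
      (Finset.card_le_card (Finset.insert_subset_insert _ hsub)).trans hB
    have h2 := step hE (A ∪ Y) y hA
    by_cases h3 : y ∈ B ∪ Y
    · rw [Finset.insert_eq_of_mem h3]
      omega
    · by_cases hf : IsFree h r (B ∪ Y) y
      · rw [rho_free hE h3 hB hf, rho_free hE (fun h4 => h3 (hsub h4)) hA (anti hsub hf)]
        omega
      · rw [rho_not_free hE h3 hB hf]
        omega

theorem no_free {h : V → Fin N → ZMod 2} {r : ℕ} (hE : Expands h r) (A Y : Finset (Fin N)) :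
    (A ∪ Y).card ≤ 2 * r → (∀ j ∈ Y, j ∉ A → ¬ IsFree h r A j) →
      rho h r (A ∪ Y) = rho h r A := by
  induction Y using Finset.induction_on with
  | empty => intro _ _; simp
  | insert y Y hy ih =>
    intro hA hn
    rw [Finset.union_insert] at hA ⊢
    have h1 := ih ((Finset.card_le_card (Finset.subset_insert _ _)).trans hA)
      (fun j hj => hn j (Finset.mem_insert_of_mem hj))
    by_cases h3 : y ∈ A ∪ Y
    · rw [Finset.insert_eq_of_mem h3, h1]
    · have h4 : y ∉ A := fun h => h3 (Finset.mem_union_left _ h)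
      rw [rho_not_free hE h3 hA (fun hf => hn y (Finset.mem_insert_self _ _) h4
        (anti Finset.subset_union_left hf)), h1]

end

theorem proof_T2 : S_Rho := by
  intro V _ _ N r h hE
  refine ⟨?_, ?_, ?_, ?_, ?_, ?_, ?_, ?_, ?_⟩
  · intro A
    exact Nat.sub_le _ _
  · intro A hA
    have := log_le hE A hA
    unfold rho
    omega
  · intro A B hAB hB
    have h1 := two_sided hE A B (by rwa [Finset.union_eq_right.2 hAB])
    rw [Finset.union_eq_right.2 hAB] at h1
    exact h1.1
  · intro A Z hA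
    exact (two_sided hE A Z hA).2
  · intro A B Y hAB hB
    exact submod hE hAB Y hB
  · intro A Y hA hlt
    by_contra hcon
    push Not at hcon
    have := no_free hE A Y hA hcon
    omega
  · intro A B j hAB hf
    exact anti hAB hf
  · intro A hA
    exact UU_card hE A hA
  · intro A B hAB
    unfold UU
    exact Finset.biUnion_subset_biUnion_of_subset_left _ (LL_mono hAB)

end Pool.Agent.Helper600R2.TS.T2
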