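import Pool.Agent.Helper600R2.TS.Stm

/-! T3: resolution steps preserve goodness. -/

namespace Pool.Agent.Helper600R2.TS.T3

open Finset Pool.Agent.Helper600R2.TS

variable {V : Type} [Fintype V] [DecidableEq V] {N : ℕ}

omit [Fintype V] [DecidableEq V] in
theorem snd {G P R C D0 : Cl N} {x : Fin N} (hG : G = insert (x, true) C)
    (hP : P = insert (x, false) D0) (hR : R = C ∪ D0) {y : Fin N → ZMod 2} {lG lP : Lit N}
    (h1 : lG ∈ G) (h2 : y lG.1 = lv lG.2) (h3 : lP ∈ P) (h4 : y lP.1 = lv lP.2) :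
    lG ∈ R ∨ lP ∈ R := by
  subst hG hP hR
  rw [mem_insert] at h1 h3
  rcases h1 with h1 | h1
  · rcases h3 with h3 | h3
    · exfalso
      rw [h1] at h2
      rw [h3] at h4
      rw [h2] at h4
      unfold lv at h4
      simp at h4
    · exact Or.inr (mem_union_right _ h3)
  · exact Or.inl (mem_union_left _ h1)

omit [Fintype V] [DecidableEq V] in
theorem mem_vars {K : Cl N} {l : Lit N} (h : l ∈ K) : l.1 ∈ vars K := mem_image_of_mem _ h

theorem ev {h : V → Fin N → ZMod 2} {r b : ℕ} (hC : ConsFacts h r) {χ : V → ZMod 2}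
    {D : Finset (Cl N)} (h1 : Good1 h r b χ D) {K : Cl N} (hK : K ∈ D) (hS : Small h r b K)
    {A : Finset (Fin N)} {y : Fin N → ZMod 2} (hA : vars K ⊆ A) (hy : Cons h r χ A y) :
    SatIn y A K := by
  have h2 := h1 K hK hS y (hC.mono χ _ _ y hA hy)
  unfold Fals at h2
  push Not at h2
  obtain ⟨l, hl, hl'⟩ := h2
  exact ⟨l, hl, hA (mem_vars hl), hl'⟩

theorem main {h : V → Fin N → ZMod 2} {r b : ℕ} (hC : ConsFacts h r) {χ : V → ZMod 2}
    {D : Finset (Cl N)} (h1 : Good1 h r b χ D) {G P R : Cl N} (hG : G ∈ D) (hP : P ∈ D)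
    (hR : Resolvent G P R) {A : Finset (Fin N)} {y : Fin N → ZMod 2} (hy : Cons h r χ A y)
    (hbig : ∀ K ∈ D, ¬ Small h r b K → SatIn y A K)
    (hsG : Small h r b G → vars G ⊆ A) (hsP : Small h r b P → vars P ⊆ A) : SatIn y A R := by
  obtain ⟨x, C, D0, eG, eP, eR⟩ := hR
  have hk : ∀ K ∈ D, (Small h r b K → vars K ⊆ A) → SatIn y A K := by
    intro K hK hs
    by_cases hS : Small h r b K
    · exact ev hC h1 hK hS (hs hS) hy
    · exact hbig K hK hS
  obtain ⟨lG, g1, g2, g3⟩ := hk G hG hsG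
  obtain ⟨lP, p1, p2, p3⟩ := hk P hP hsP
  rcases snd eG eP eR g1 g3 p1 p3 with h2 | h2
  · exact ⟨lG, h2, g2, g3⟩
  · exact ⟨lP, h2, p2, p3⟩

omit [Fintype V] [DecidableEq V] in
theorem vars_sub {G P R : Cl N} (hR : Resolvent G P R) : ∃ x : Fin N,
    vars G ⊆ insert x (vars R) ∧ vars P ⊆ insert x (vars R) := by
  obtain ⟨x, C, D0, eG, eP, eR⟩ := hR
  refine ⟨x, ?_, ?_⟩
  · intro j hj
    unfold vars at hj
    rw [mem_image] at hj
    obtain ⟨l, hl, rfl⟩ := hj
    rw [eG, mem_insert] at hl
    rcases hl with hl | hl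
    · rw [hl]
      exact mem_insert_self _ _
    · exact mem_insert_of_mem (mem_vars (by rw [eR]; exact mem_union_left _ hl))
  · intro j hj
    unfold vars at hj
    rw [mem_image] at hj
    obtain ⟨l, hl, rfl⟩ := hj
    rw [eP, mem_insert] at hl
    rcases hl with hl | hl
    · rw [hl]
      exact mem_insert_self _ _
    · exact mem_insert_of_mem (mem_vars (by rw [eR]; exact mem_union_right _ hl))

theorem proof_T3 : S_Resolve := by
  classical
  intro V _ _ N r b m h hC _ hr χ D G P R hG hP hR hE hgood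
  obtain ⟨h1, h2⟩ := hgood
  obtain ⟨x, hx1, hx2⟩ := vars_sub hR
  refine ⟨?_, ?_⟩
  · -- Good1
    intro K hK hS y hy hF
    rw [mem_insert] at hK
    rcases hK with rfl | hK
    · obtain ⟨A, y', hA1, hA2, hA3, hA4, hA5⟩ := h2 (vars K) y hS.1 hS.2 hy
      have hcard : (insert x A).card ≤ 2 * r := by
        have := card_insert_le x A
        have := hS.1
        omega
      obtain ⟨y'', e1, e2⟩ := hC.extend χ A (insert x A) y' (subset_insert _ _) hcard hA4
      have hsub : insert x (vars K) ⊆ insert x A := insert_subset_insert x hA1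
      obtain ⟨l, l1, l2, l3⟩ := main hC h1 hG hP hR e2 (fun K' hK' hb => by
        obtain ⟨l, l1, l2, l3⟩ := hA5 K' hK' hb
        exact ⟨l, l1, mem_insert_of_mem l2, by rw [e1 _ l2]; exact l3⟩)
        (fun _ => hx1.trans hsub) (fun _ => hx2.trans hsub)
      apply hF l l1
      have hlv := mem_vars l1
      rw [← hA3 _ hlv, ← e1 _ (hA1 hlv)]
      exact l3
    · exact h1 K hK hS y hy hF
  · -- Good2
    intro B y hB1 hB2 hy
    obtain ⟨A, y', hA1, hA2, hA3, hA4, hA5⟩ := h2 B y hB1 hB2 hy
    set XG : Finset (Fin N) := if Small h r b G then vars G else ∅ with hXG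
    set XP : Finset (Fin N) := if Small h r b P then vars P else ∅ with hXP
    have hcG : XG.card ≤ 2 * b := by
      rw [hXG]
      split_ifs with hs
      · exact hs.1
      · simp
    have hcP : XP.card ≤ 2 * b := by
      rw [hXP]
      split_ifs with hs
      · exact hs.1
      · simp
    have hcard : (A ∪ XG ∪ XP).card ≤ 2 * r := by
      have := card_union_le (A ∪ XG) XP
      have := card_union_le A XG
      omega
    have hAsub : A ⊆ A ∪ XG ∪ XP := subset_union_left.trans subset_union_left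
    obtain ⟨y'', e1, e2⟩ := hC.extend χ A (A ∪ XG ∪ XP) y' hAsub hcard hA4
    have hbigD : ∀ K ∈ D, ¬ Small h r b K → SatIn y'' (A ∪ XG ∪ XP) K := by
      intro K hK hb
      obtain ⟨l, l1, l2, l3⟩ := hA5 K hK hb
      exact ⟨l, l1, hAsub l2, by rw [e1 _ l2]; exact l3⟩
    have hRs : SatIn y'' (A ∪ XG ∪ XP) R := main hC h1 hG hP hR e2 hbigD
      (fun hs => by
        have : vars G = XG := by rw [hXG, if_pos hs]
        rw [this]
        exact subset_union_right.trans subset_union_left)
      (fun hs => by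
        have : vars P = XP := by rw [hXP, if_pos hs]
        rw [this]
        exact subset_union_right)
    set E : Finset (Cl N) := (insert R D).filter (fun K => ¬ Small h r b K) with hEdef
    have hw : ∀ K : Cl N, ∃ l : Lit N, K ∈ E → l ∈ K ∧ l.1 ∈ A ∪ XG ∪ XP ∧ y'' l.1 = lv l.2 := by
      intro K
      by_cases hK : K ∈ E
      · rw [hEdef, mem_filter, mem_insert] at hK
        have : SatIn y'' (A ∪ XG ∪ XP) K := by
          rcases hK.1 with h3 | h3
          · rw [h3]; exact hRs
          · exact hbigD K h3 hK.2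
        obtain ⟨l, l1, l2, l3⟩ := this
        exact ⟨l, fun _ => ⟨l1, l2, l3⟩⟩
      · by_cases hN : Nonempty (Lit N)
        · exact ⟨hN.some, fun h3 => absurd h3 hK⟩
        · exfalso
          exact hN ⟨(x, true)⟩
    choose w hw using hw
    refine ⟨B ∪ E.image (fun K => (w K).1), y'', subset_union_left, ?_, ?_, ?_, ?_⟩
    · refine (card_union_le _ _).trans (Nat.add_le_add_left (card_image_le.trans ?_) _)
      exact hE E (filter_subset _ _) (fun K hK => (mem_filter.1 hK).2)
    · intro j hj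
      rw [e1 j (hA1 hj), hA3 j hj]
    · refine hC.mono χ _ _ y'' ?_ e2
      refine union_subset (hA1.trans hAsub) ?_
      intro j hj
      rw [mem_image] at hj
      obtain ⟨K, hK, rfl⟩ := hj
      exact (hw K hK).2.1
    · intro K hK hb
      have hKE : K ∈ E := mem_filter.2 ⟨hK, hb⟩
      exact ⟨w K, (hw K hKE).1, mem_union_right _ (mem_image_of_mem (fun K => (w K).1) hKE),
        (hw K hKE).2.2⟩

end Pool.Agent.Helper600R2.TS.T3
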