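import Pool.Agent.Helper600R2.TS.Stm

/-! T4: goodness depends only on `Vset`. -/

namespace Pool.Agent.Helper600R2.TS.T4

open Finset

theorem add_self2 (a : ZMod 2) : a + a = 0 := CharTwo.add_self_eq_zero a

section

variable {V : Type} [Fintype V] [DecidableEq V] {N r b m : ℕ} {h : V → Fin N → ZMod 2}

theorem good1 (CF : ConsFacts h r) {D : Finset (Cl N)} {χ χ' : V → ZMod 2}
    (hχ : ∀ u ∈ Vset h r b m D, χ u = χ' u) (hg : Good1 h r b χ D) : Good1 h r b χ' D := by
  classical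
  intro G hG hS y hy
  refine hg G hG hS y (CF.outer χ' χ (vars G) y (fun u hu => (hχ u ?_).symm) hy)
  unfold Vset
  refine Finset.mem_union_left _ (Finset.mem_biUnion.mpr ⟨G, ?_, hu⟩)
  exact Finset.mem_filter.mpr ⟨hG, hS⟩

/-- absorption of the close clauses -/
theorem absorb (Big : Finset (Cl N)) (B : Finset (Fin N)) (hB : B.card ≤ R0 b m)
    (hB2 : rho h r B ≤ b) :
    ∃ K ⊆ Big, (B ∪ K.biUnion vars).card ≤ R0 b m ∧
      rho h r (B ∪ K.biUnion vars) ≤ b + m * K.card ∧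
      ∀ G ∈ Big, G ∉ K → ¬ ((B ∪ K.biUnion vars ∪ vars G).card ≤ R0 b m ∧
        rho h r (B ∪ K.biUnion vars ∪ vars G) ≤ rho h r (B ∪ K.biUnion vars) + m) := by
  classical
  set S := Big.powerset.filter (fun K => (B ∪ K.biUnion vars).card ≤ R0 b m ∧
      rho h r (B ∪ K.biUnion vars) ≤ b + m * K.card) with hS
  have hne : S.Nonempty := ⟨∅, by simp [hS, hB, hB2]⟩
  obtain ⟨K, hK, hmax⟩ := Finset.exists_max_image S (fun K => K.card) hne
  rw [hS, Finset.mem_filter, Finset.mem_powerset] at hK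
  refine ⟨K, hK.1, hK.2.1, hK.2.2, ?_⟩
  rintro G hG hGK ⟨h1, h2⟩
  have e : B ∪ (insert G K).biUnion vars = B ∪ K.biUnion vars ∪ vars G := by
    rw [Finset.biUnion_insert, Finset.union_comm (vars G), Finset.union_assoc]
  have hmem : insert G K ∈ S := by
    rw [hS, Finset.mem_filter, Finset.mem_powerset]
    refine ⟨Finset.insert_subset hG hK.1, by rw [e]; exact h1, ?_⟩
    rw [e, Finset.card_insert_of_notMem hGK]
    calc _ ≤ rho h r (B ∪ K.biUnion vars) + m := h2
      _ ≤ b + m * K.card + m := Nat.add_le_add_right hK.2.2 m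
      _ = b + m * (K.card + 1) := by ring
  have := hmax _ hmem
  rw [Finset.card_insert_of_notMem hGK] at this
  omega

/-- the outer variables of an absorbed family are in `Vset` -/
theorem UU_sub (RF : RhoFacts h r) (hr : R0 b m + m ≤ 2 * r) {D K : Finset (Cl N)}
    {B : Finset (Fin N)} (hKD : K ⊆ D) (hKb : ∀ G ∈ K, ¬ Small h r b G) (hKm : K.card ≤ m)
    (h1 : (B ∪ K.biUnion vars).card ≤ R0 b m)
    (h2 : rho h r (B ∪ K.biUnion vars) ≤ b + m * K.card) :
    UU h r (K.biUnion vars) ⊆ Vset h r b m D := by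
  classical
  have h3 : rho h r (B ∪ K.biUnion vars) ≤ b + m ^ 2 := by
    refine h2.trans ?_
    rw [pow_two]
    exact Nat.add_le_add_left (Nat.mul_le_mul_left m hKm) b
  have hX : (B ∪ K.biUnion vars).card ≤ 2 * r := by omega
  have hsub : ∀ Y ⊆ B ∪ K.biUnion vars, Y.card ≤ R0 b m ∧ rho h r Y ≤ b + m ^ 2 := fun Y hY =>
    ⟨(Finset.card_le_card hY).trans h1, (RF.mono _ _ hY hX).trans h3⟩
  have hv : ∀ G ∈ K, vars G ⊆ B ∪ K.biUnion vars := fun G hG =>
    (Finset.subset_biUnion_of_mem vars hG).trans Finset.subset_union_right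
  rcases K.eq_empty_or_nonempty with rfl | ⟨G1, hG1⟩
  · have h4 := RF.UU_card (∅ : Finset (Fin N)) (by simp)
    rw [Finset.card_empty] at h4
    have h5 : UU h r (∅ : Finset (Fin N)) = ∅ := Finset.card_eq_zero.mp (by omega)
    rw [Finset.biUnion_empty, h5]
    exact Finset.empty_subset _
  · intro u hu
    unfold Vset
    refine Finset.mem_union_right _ (Finset.mem_biUnion.mpr ⟨G1, ?_, ?_⟩)
    · obtain ⟨g1, g2⟩ := hsub _ (hv G1 hG1)
      exact Finset.mem_filter.mpr ⟨hKD hG1, hKb G1 hG1, g1, g2⟩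
    · refine RF.UU_mono _ _ ?_ hu
      intro j hj
      rw [Finset.mem_biUnion] at hj
      obtain ⟨G', hG', hj⟩ := hj
      unfold YY
      refine Finset.mem_union_right _ (Finset.mem_biUnion.mpr ⟨G', ?_, hj⟩)
      obtain ⟨g1, g2⟩ := hsub _ (Finset.union_subset (hv G1 hG1) (hv G' hG'))
      exact Finset.mem_filter.mpr ⟨hKD hG', hKb G' hG', g1, g2⟩

/-- existence of a free variable -/
theorem exists_j (RF : RhoFacts h r) (hr : R0 b m + m ≤ 2 * r) {X Zc : Finset (Fin N)}
    {G : Cl N} (h1 : X.card ≤ R0 b m) (h2 : rho h r X ≤ b + m ^ 2) (hZ : Zc.card ≤ m)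
    (hG : ¬ ((X ∪ vars G).card ≤ R0 b m ∧ rho h r (X ∪ vars G) ≤ rho h r X + m)) :
    ∃ j ∈ vars G, j ∉ X ∪ Zc ∧ IsFree h r (X ∪ Zc) j := by
  classical
  by_contra hcon
  push Not at hcon
  have hXZ : (X ∪ Zc).card ≤ 2 * r := by
    have := Finset.card_union_le X Zc
    omega
  have h3 : rho h r (X ∪ Zc) ≤ rho h r X + Zc.card := RF.union_le X Zc hXZ
  have key : ∀ Y ⊆ vars G, (X ∪ Zc ∪ Y).card ≤ 2 * r → rho h r (X ∪ Zc ∪ Y) ≤ rho h r (X ∪ Zc) := by
    intro Y hY hc
    by_contra hlt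
    obtain ⟨j, hj, hjX, hjf⟩ := RF.exists_free (X ∪ Zc) Y hc (not_le.mp hlt)
    exact hcon j (hY hj) hjX hjf
  by_cases hc : (X ∪ vars G).card ≤ R0 b m
  · apply hG
    refine ⟨hc, ?_⟩
    have hle : (X ∪ Zc ∪ vars G).card ≤ 2 * r := by
      have e : X ∪ Zc ∪ vars G = (X ∪ vars G) ∪ Zc := by
        rw [Finset.union_assoc, Finset.union_comm Zc, ← Finset.union_assoc]
      rw [e]
      have := Finset.card_union_le (X ∪ vars G) Zc
      omega
    have h4 := RF.mono (X ∪ vars G) (X ∪ Zc ∪ vars G)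
      (Finset.union_subset_union_left Finset.subset_union_left) hle
    have h5 := key (vars G) (Finset.Subset.refl _) hle
    omega
  · obtain ⟨W, hW1, hW2, hW3⟩ := Finset.exists_subsuperset_card_eq
      (Finset.subset_union_left (s₁ := X) (s₂ := vars G)) h1 (not_le.mp hc).le
    have hY : W \ X ⊆ vars G := by
      intro j hj
      rw [Finset.mem_sdiff] at hj
      rcases Finset.mem_union.mp (hW2 hj.1) with h | h
      · exact absurd h hj.2
      · exact h
    have e : X ∪ Zc ∪ (W \ X) = W ∪ Zc := by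
      ext j
      simp only [Finset.mem_union, Finset.mem_sdiff]
      constructor
      · rintro ((h | h) | h)
        · exact Or.inl (hW1 h)
        · exact Or.inr h
        · exact Or.inl h.1
      · rintro (h | h)
        · by_cases hx : j ∈ X
          · exact Or.inl (Or.inl hx)
          · exact Or.inr ⟨h, hx⟩
        · exact Or.inl (Or.inr h)
    have hle : (X ∪ Zc ∪ (W \ X)).card ≤ 2 * r := by
      rw [e]
      have := Finset.card_union_le W Zc
      omega
    have h4 := RF.half _ hle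
    have h5 := key _ hY hle
    have h6 : R0 b m ≤ (X ∪ Zc ∪ (W \ X)).card := by
      rw [e, ← hW3]
      exact Finset.card_le_card Finset.subset_union_left
    unfold R0 at h6
    omega

/-- the greedy choice -/
theorem greedy (CF : ConsFacts h r) (RF : RhoFacts h r) (hr : R0 b m + m ≤ 2 * r)
    {X A1 : Finset (Fin N)} {χ' : V → ZMod 2} {y3 : Fin N → ZMod 2}
    (h1 : X.card ≤ R0 b m) (h2 : rho h r X ≤ b + m ^ 2) (hA : A1 ⊆ X) (hc : Cons h r χ' A1 y3)
    (P : Finset (Cl N)) (hP : P.card ≤ m)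
    (hG : ∀ G ∈ P, ¬ ((X ∪ vars G).card ≤ R0 b m ∧ rho h r (X ∪ vars G) ≤ rho h r X + m)) :
    ∃ (Zc : Finset (Fin N)) (y4 : Fin N → ZMod 2), Zc.card ≤ P.card ∧
      Cons h r χ' (A1 ∪ Zc) y4 ∧ (∀ j ∈ A1, y4 j = y3 j) ∧ ∀ G ∈ P, SatIn y4 Zc G := by
  classical
  induction P using Finset.induction_on with
  | empty => exact ⟨∅, y3, by simp, by simpa using hc, fun _ _ => rfl, by simp⟩
  | insert G P hGP ih =>
    rw [Finset.card_insert_of_notMem hGP] at hP
    obtain ⟨Zc, y4, g1, g2, g3, g4⟩ := ih (by omega) (fun G hG' => hG G (Finset.mem_insert_of_mem hG'))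
    obtain ⟨j, hj, hjX, hjf⟩ := exists_j RF hr h1 h2 (by omega : Zc.card ≤ m)
      (hG G (Finset.mem_insert_self _ _))
    have hsub : A1 ∪ Zc ⊆ X ∪ Zc := Finset.union_subset_union_left hA
    have hj1 : j ∉ A1 ∪ Zc := fun h => hjX (hsub h)
    obtain ⟨l, hl, hlj⟩ := Finset.mem_image.mp hj
    refine ⟨insert j Zc, Function.update y4 j (lv l.2), ?_, ?_, ?_, ?_⟩
    · rw [Finset.card_insert_of_notMem hGP]
      exact (Finset.card_insert_le _ _).trans (by omega)
    · rw [Finset.union_insert]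
      exact CF.free χ' (A1 ∪ Zc) y4 j (lv l.2) hj1 (RF.anti _ _ _ hsub hjf) g2
    · intro i hi
      rw [Function.update_of_ne, g3 i hi]
      rintro rfl
      exact hj1 (Finset.mem_union_left _ hi)
    · intro G' hG'
      rcases Finset.mem_insert.mp hG' with rfl | hG'
      · refine ⟨l, hl, ?_, ?_⟩
        · rw [hlj]
          exact Finset.mem_insert_self _ _
        · rw [hlj, Function.update_self]
      · obtain ⟨l', q1, q2, q3⟩ := g4 G' hG'
        refine ⟨l', q1, Finset.mem_insert_of_mem q2, ?_⟩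
        rw [Function.update_of_ne, q3]
        rintro hh
        rw [hh] at q2
        exact hj1 (Finset.mem_union_right _ q2)

theorem good2 (CF : ConsFacts h r) (RF : RhoFacts h r) (hr : R0 b m + m ≤ 2 * r)
    {D : Finset (Cl N)} (hD : ∀ E ⊆ D, (∀ G ∈ E, ¬ Small h r b G) → E.card ≤ m)
    {χ χ' : V → ZMod 2} (hχ : ∀ u ∈ Vset h r b m D, χ u = χ' u) (hg : Good2 h r b m χ D) :
    Good2 h r b m χ' D := by
  classical
  intro B y' hB1 hB2 hB3
  set Big := D.filter (fun G => ¬ Small h r b G) with hBig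
  have hBigm : Big.card ≤ m := hD Big (Finset.filter_subset _ _)
    (fun G hG => (Finset.mem_filter.mp hG).2)
  obtain ⟨K, hK1, hK2, hK3, hK4⟩ := absorb (h := h) (r := r) (b := b) (m := m) Big B
    (by unfold R0; omega) hB2
  have hKm : K.card ≤ m := (Finset.card_le_card hK1).trans hBigm
  have hKD : K ⊆ D := hK1.trans (Finset.filter_subset _ _)
  have hKb : ∀ G ∈ K, ¬ Small h r b G := fun G hG => (Finset.mem_filter.mp (hK1 hG)).2
  have hUU := UU_sub RF hr hKD hKb hKm hK2 hK3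
  set Z := K.biUnion vars with hZ
  set X := B ∪ Z with hX
  have hXr : X.card ≤ 2 * r := by omega
  have hXrho : rho h r X ≤ b + m ^ 2 := by
    refine hK3.trans ?_
    rw [pow_two]
    exact Nat.add_le_add_left (Nat.mul_le_mul_left m hKm) b
  -- the shift
  set ξ : V → ZMod 2 := fun u => χ u + χ' u with hξ
  have hξ0 : ∀ u ∈ UU h r Z, ξ u = 0 := by
    intro u hu
    show χ u + χ' u = 0
    rw [hχ u (hUU hu), add_self2]
  obtain ⟨δ, hδ1, hδ2⟩ := CF.extend ξ Z X (fun _ => 0) Finset.subset_union_right hXr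
    (CF.zero ξ Z hξ0)
  have hBX : B ⊆ X := Finset.subset_union_left
  have e1 : (fun u => χ' u + ξ u) = χ := by
    funext u
    show χ' u + (χ u + χ' u) = χ u
    rw [add_comm (χ u), ← add_assoc, add_self2, zero_add]
  have e2 : (fun u => χ u + ξ u) = χ' := by
    funext u
    show χ u + (χ u + χ' u) = χ' u
    rw [← add_assoc, add_self2, zero_add]
  have hy1 : Cons h r χ B (fun j => y' j + δ j) := by
    have := CF.shift χ' ξ B y' δ hB3 (CF.mono ξ B X δ hBX hδ2)
    rwa [e1] at this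
  obtain ⟨A, y2, hA1, hA2, hA3, hA4, hA5⟩ := hg B _ hB1 hB2 hy1
  set A1 := B ∪ (A ∩ Z) with hA1d
  have hA1X : A1 ⊆ X := Finset.union_subset_union_right Finset.inter_subset_right
  have hA1A : A1 ⊆ A := Finset.union_subset hA1 Finset.inter_subset_left
  have hy3 : Cons h r χ' A1 (fun j => y2 j + δ j) := by
    have := CF.shift χ ξ A1 y2 δ (CF.mono χ A1 A y2 hA1A hA4) (CF.mono ξ A1 X δ hA1X hδ2)
    rwa [e2] at this
  have hBK : (Big \ K).card ≤ m := (Finset.card_le_card Finset.sdiff_subset).trans hBigm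
  obtain ⟨Zc, y4, g1, g2, g3, g4⟩ := greedy CF RF hr hK2 hXrho hA1X hy3 (Big \ K) hBK
    (fun G hG => hK4 G (Finset.mem_sdiff.mp hG).1 (Finset.mem_sdiff.mp hG).2)
  -- all big clauses are satisfied
  have hsat : ∀ G ∈ Big, ∃ l : Lit N, l ∈ G ∧ l.1 ∈ A1 ∪ Zc ∧ y4 l.1 = lv l.2 := by
    intro G hG
    by_cases hGK : G ∈ K
    · obtain ⟨l, q1, q2, q3⟩ := hA5 G (hKD hGK) (hKb G hGK)
      have hlZ : l.1 ∈ Z := by
        rw [hZ, Finset.mem_biUnion]
        exact ⟨G, hGK, Finset.mem_image_of_mem _ q1⟩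
      have hlA : l.1 ∈ A1 := Finset.mem_union_right _ (Finset.mem_inter.mpr ⟨q2, hlZ⟩)
      refine ⟨l, q1, Finset.mem_union_left _ hlA, ?_⟩
      rw [g3 _ hlA]
      show y2 l.1 + δ l.1 = lv l.2
      rw [hδ1 _ hlZ, add_zero, q3]
    · obtain ⟨l, q1, q2, q3⟩ := g4 G (Finset.mem_sdiff.mpr ⟨hG, hGK⟩)
      exact ⟨l, q1, Finset.mem_union_right _ q2, q3⟩
  choose w hw using hsat
  refine ⟨B ∪ Big.attach.image (fun G => (w G.1 G.2).1), y4, Finset.subset_union_left,
    ?_, ?_, ?_, ?_⟩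
  · refine (Finset.card_union_le _ _).trans (Nat.add_le_add_left ?_ _)
    exact Finset.card_image_le.trans (Finset.card_attach.le.trans hBigm)
  · intro j hj
    rw [g3 j (Finset.mem_union_left _ hj)]
    show y2 j + δ j = y' j
    rw [hA3 j hj]
    show y' j + δ j + δ j = y' j
    rw [add_assoc, add_self2, add_zero]
  · refine CF.mono χ' _ _ y4 (Finset.union_subset ?_ ?_) g2
    · exact Finset.subset_union_left.trans Finset.subset_union_left
    · intro j hj
      obtain ⟨G, _, rfl⟩ := Finset.mem_image.mp hj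
      exact (hw G.1 G.2).2.1
  · intro G hGD hGS
    have hG : G ∈ Big := Finset.mem_filter.mpr ⟨hGD, hGS⟩
    obtain ⟨q1, q2, q3⟩ := hw G hG
    refine ⟨w G hG, q1, Finset.mem_union_right _ ?_, q3⟩
    exact Finset.mem_image.mpr ⟨⟨G, hG⟩, Finset.mem_attach _ _, rfl⟩

end

theorem proof_T4 : S_Local := by
  intro V _ _ N r b m h CF RF hr D hD χ χ' hχ hg
  exact ⟨good1 CF hχ hg.1, good2 CF RF hr hD hχ hg.2⟩

end Pool.Agent.Helper600R2.TS.T4
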