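import Pool.Agent.Helper600R2.TS.Stm

/-! T5: size of `Vset`. -/

namespace Pool.Agent.Helper600R2.TS.T5

open Finset

theorem vars_card_le {N : ℕ} (G : Cl N) : (vars G).card ≤ G.card := card_image_le

theorem arith {b m : ℕ} (hb : 1 ≤ b) (hm : 1 ≤ m) (hm3 : m ^ 3 ≤ b) :
    m ^ 2 ≤ b ∧ m ≤ b ∧ R0 b m ≤ 8 * b := by
  have h1 : m ^ 2 ≤ m ^ 3 := Nat.pow_le_pow_right hm (by norm_num)
  have h2 : m ^ 1 ≤ m ^ 3 := Nat.pow_le_pow_right hm (by norm_num)
  rw [pow_one] at h2
  refine ⟨h1.trans hm3, h2.trans hm3, ?_⟩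
  unfold R0
  have := h1.trans hm3
  have := h2.trans hm3
  omega

section
variable {V : Type} [Fintype V] [DecidableEq V] {N r b m : ℕ} {h : V → Fin N → ZMod 2}

theorem big_vars (hR : RhoFacts h r) (G : Cl N) (hG : ¬ Small h r b G) :
    b + 1 ≤ (vars G).card := by
  by_contra hc
  apply hG
  have h1 : (vars G).card ≤ b := by omega
  exact ⟨by omega, (hR.le_card _).trans h1⟩

theorem big_rho (hR : RhoFacts h r) (hb : 1 ≤ b) (hm : 1 ≤ m) (hm3 : m ^ 3 ≤ b)
    (hr : 8 * b ≤ r) (G : Cl N) (hG : ¬ Small h r b G) (hc : (vars G).card ≤ R0 b m) :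
    b + 1 ≤ rho h r (vars G) := by
  obtain ⟨h2, h1, h0⟩ := arith hb hm hm3
  by_cases h3 : (vars G).card ≤ 2 * b
  · by_contra h4
    exact hG ⟨h3, by omega⟩
  · have := hR.half (vars G) (by omega)
    omega

theorem cluster (hR : RhoFacts h r) (hb : 1 ≤ b) (hm : 1 ≤ m) (hm3 : m ^ 3 ≤ b)
    (hr : 8 * b ≤ r) (G : Cl N) (hG : ¬ Small h r b G) (hc : (vars G).card ≤ R0 b m)
    (hrho : rho h r (vars G) ≤ b + m ^ 2) (K : Finset (Cl N))
    (hK : ∀ G' ∈ K, (vars G ∪ vars G').card ≤ R0 b m ∧
      rho h r (vars G ∪ vars G') ≤ b + m ^ 2) (hKc : K.card ≤ m) :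
    rho h r (vars G ∪ K.biUnion vars) ≤ b + m ^ 2 + K.card * m ^ 2 ∧
      (vars G ∪ K.biUnion vars).card ≤ 6 * b := by
  obtain ⟨h2, h1, h0⟩ := arith hb hm hm3
  have hG1 := big_rho hR hb hm hm3 hr G hG hc
  induction K using Finset.induction_on with
  | empty =>
    have := hR.half (vars G) (by omega)
    refine ⟨by simpa using hrho, ?_⟩
    simp only [biUnion_empty, union_empty]
    omega
  | insert G' K hG' ih =>
    rw [card_insert_of_notMem hG'] at hKc
    obtain ⟨i1, i2⟩ := ih (fun x hx => hK x (mem_insert_of_mem hx)) (by omega)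
    obtain ⟨j1, j2⟩ := hK G' (mem_insert_self _ _)
    have e : vars G ∪ (insert G' K).biUnion vars = (vars G ∪ K.biUnion vars) ∪ vars G' := by
      rw [biUnion_insert, union_assoc, union_comm (vars G') _]
    have c' : (vars G').card ≤ R0 b m :=
      (card_le_card (subset_union_right (s₁ := vars G))).trans j1
    have c1 : ((vars G ∪ K.biUnion vars) ∪ vars G').card ≤ 14 * b := by
      refine (card_union_le _ _).trans ?_
      omega
    have sm := hR.submod (vars G) (vars G ∪ K.biUnion vars) (vars G') subset_union_left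
      (by omega)
    rw [e, card_insert_of_notMem hG']
    have k1 : rho h r ((vars G ∪ K.biUnion vars) ∪ vars G') ≤
        b + m ^ 2 + (K.card + 1) * m ^ 2 := by
      have : (K.card + 1) * m ^ 2 = K.card * m ^ 2 + m ^ 2 := by ring
      omega
    refine ⟨k1, ?_⟩
    have k2 := hR.half ((vars G ∪ K.biUnion vars) ∪ vars G') (by omega)
    have k3 : (K.card + 1) * m ^ 2 ≤ m ^ 3 := by
      calc (K.card + 1) * m ^ 2 ≤ m * m ^ 2 := Nat.mul_le_mul_right _ hKc
        _ = m ^ 3 := by ring
    omega

end

theorem proof_T5 : S_Vcard := by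
  classical
  intro V _ _ N r b m h hR hb hm hm3 hr D hD
  obtain ⟨h2, h1, h0⟩ := arith hb hm hm3
  unfold totalSpace at hD
  -- number of big clauses
  have hbig : (D.filter (fun G => ¬ Small h r b G)).card ≤ m := by
    have e1 : (D.filter (fun G => ¬ Small h r b G)).card * (b + 1) ≤
        ∑ C ∈ D.filter (fun G => ¬ Small h r b G), C.card := by
      rw [← smul_eq_mul]
      apply card_nsmul_le_sum
      intro G hG
      exact (big_vars hR G (mem_filter.1 hG).2).trans (vars_card_le G)
    have e2 : ∑ C ∈ D.filter (fun G => ¬ Small h r b G), C.card ≤ b * m :=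
      (sum_le_sum_of_subset (filter_subset _ _)).trans hD
    by_contra hcon
    push Not at hcon
    have e3 : m * (b + 1) ≤ (D.filter (fun G => ¬ Small h r b G)).card * (b + 1) :=
      Nat.mul_le_mul_right _ hcon.le
    have e4 : m * (b + 1) = b * m + m := by ring
    omega
  have p1 : 2 * ((D.filter (fun G => Small h r b G)).biUnion
      (fun G => UU h r (vars G))).card ≤ b * m := by
    calc 2 * ((D.filter (fun G => Small h r b G)).biUnion (fun G => UU h r (vars G))).card
        ≤ 2 * ∑ G ∈ D.filter (fun G => Small h r b G), (UU h r (vars G)).card :=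
          Nat.mul_le_mul_left _ card_biUnion_le
      _ = ∑ G ∈ D.filter (fun G => Small h r b G), 2 * (UU h r (vars G)).card := by
          rw [mul_sum]
      _ ≤ ∑ G ∈ D.filter (fun G => Small h r b G), G.card := by
          apply sum_le_sum
          intro G hG
          have hs := (mem_filter.1 hG).2
          have := hs.1
          exact (hR.UU_card _ (by omega)).trans (vars_card_le G)
      _ ≤ ∑ G ∈ D, G.card := sum_le_sum_of_subset (filter_subset _ _)
      _ ≤ b * m := hD
  have p2 : ((D.filter (fun G => ¬ Small h r b G ∧ (vars G).card ≤ R0 b m ∧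
      rho h r (vars G) ≤ b + m ^ 2)).biUnion (fun G => UU h r (YY h r b m D G))).card ≤
      m * (3 * b) := by
    refine (card_biUnion_le_card_mul _ _ (3 * b) ?_).trans ?_
    · intro G hG
      obtain ⟨-, g1, g2, g3⟩ := mem_filter.1 hG
      have hcl := cluster hR hb hm hm3 hr G g1 g2 g3
        (D.filter (fun G' => ¬ Small h r b G' ∧ (vars G ∪ vars G').card ≤ R0 b m ∧
          rho h r (vars G ∪ vars G') ≤ b + m ^ 2))
        (fun G' hG' => (mem_filter.1 hG').2.2)
        ((card_le_card (fun x hx => by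
          rw [mem_filter] at hx ⊢
          exact ⟨hx.1, hx.2.1⟩)).trans hbig)
      have hy : (YY h r b m D G).card ≤ 6 * b := by
        unfold YY
        convert hcl.2
      have := hR.UU_card (YY h r b m D G) (by omega)
      omega
    · apply Nat.mul_le_mul_right
      refine (card_le_card (fun x hx => ?_)).trans hbig
      rw [mem_filter] at hx ⊢
      exact ⟨hx.1, hx.2.1⟩
  have hfin : (Vset h r b m D).card ≤
      ((D.filter (fun G => Small h r b G)).biUnion (fun G => UU h r (vars G))).card +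
      ((D.filter (fun G => ¬ Small h r b G ∧ (vars G).card ≤ R0 b m ∧
      rho h r (vars G) ≤ b + m ^ 2)).biUnion (fun G => UU h r (YY h r b m D G))).card := by
    unfold Vset
    refine (card_union_le _ _).trans (le_of_eq ?_)
    congr!
  have e5 : m * (3 * b) = 3 * (b * m) := by ring
  omega

end Pool.Agent.Helper600R2.TS.T5
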