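import Pool.Agent.Helper600R2.TS.Stm

/-! T6: from semantic refutations to black-white pebblings -/

namespace Pool.Agent.Helper600R2.TS.T6

open Finset

/-- forced pairs -/
inductive Fc {V : Type} (preds : V → Finset V) (τ : ℕ) (W : ℕ → Finset V)
    (a : ℕ → Option (Option V)) : V → ℕ → Prop
  | just (v : V) (t : ℕ) : t < τ → a t = some (some v) →
      (∀ u, u ∈ preds v → Fc preds τ W a u t) → Fc preds τ W a v t
  | fwd (v : V) (t : ℕ) : Fc preds τ W a v t → t + 1 < τ → v ∈ W (t + 1) →
      Fc preds τ W a v (t + 1)
  | bwd (v : V) (t : ℕ) : Fc preds τ W a v (t + 1) → v ∈ W (t + 1) → Fc preds τ W a v t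

section

variable {V : Type} {preds : V → Finset V} {τ : ℕ} {W : ℕ → Finset V}
  {a : ℕ → Option (Option V)}

theorem Fc.lt {v : V} {t : ℕ} (h : Fc preds τ W a v t) : t < τ := by
  induction h with
  | just v t h1 _ _ _ => exact h1
  | fwd v t _ h2 _ _ => exact h2
  | bwd v t _ _ ih => omega

theorem Fc.cases' {v : V} {t : ℕ} (h : Fc preds τ W a v t) :
    a t = some (some v) ∨ v ∈ W t ∨ v ∈ W (t + 1) := by
  induction h with
  | just v t _ h2 _ _ => exact Or.inl h2
  | fwd v t _ _ h3 _ => exact Or.inr (Or.inl h3)
  | bwd v t _ h2 _ => exact Or.inr (Or.inr h2)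

/-- justified pair -/
def J (preds : V → Finset V) (τ : ℕ) (W : ℕ → Finset V) (a : ℕ → Option (Option V))
    (v : V) (t : ℕ) : Prop :=
  a t = some (some v) ∧ ∀ u, u ∈ preds v → Fc preds τ W a u t

theorem Fc.exists_just {v : V} {t : ℕ} (h : Fc preds τ W a v t) :
    ∃ t', J preds τ W a v t' ∧
      ∀ t'', ((t ≤ t'' ∧ t'' ≤ t') ∨ (t' ≤ t'' ∧ t'' ≤ t)) → Fc preds τ W a v t'' := by
  induction h with
  | just v t h1 h2 h3 _ =>
    refine ⟨t, ⟨h2, h3⟩, fun t'' ht => ?_⟩
    have : t'' = t := by omega
    rw [this]
    exact Fc.just v t h1 h2 h3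
  | fwd v t h1 h2 h3 ih =>
    obtain ⟨t', hJ, hI⟩ := ih
    refine ⟨t', hJ, fun t'' ht => ?_⟩
    by_cases he : t'' = t + 1
    · rw [he]
      exact Fc.fwd v t h1 h2 h3
    · exact hI t'' (by omega)
  | bwd v t h1 h2 ih =>
    obtain ⟨t', hJ, hI⟩ := ih
    refine ⟨t', hJ, fun t'' ht => ?_⟩
    by_cases he : t'' = t
    · rw [he]
      exact Fc.bwd v t h1 h2
    · exact hI t'' (by omega)

end

theorem exists_forced {V : Type} [Fintype V] [DecidableEq V] (preds : V → Finset V) (z : V)
    (s τ : ℕ) (W : ℕ → Finset V) (f : ℕ → (V → ZMod 2) → Prop) (a : ℕ → Option (Option V))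
    (hS : SemRef preds z s τ W f a) : ∃ t, t < τ ∧ Fc preds τ W a z t := by
  classical
  obtain ⟨h0, hτ, hstep, hloc, -⟩ := hS
  by_contra hcon
  push Not at hcon
  let χ : ℕ → V → ZMod 2 := fun t u => if Fc preds τ W a u t then 1 else 0
  have hone : ∀ t u, χ t u = 1 ↔ Fc preds τ W a u t := by
    intro t u
    simp only [χ]
    split_ifs with h <;> simp [h]
  have hax : ∀ t, t < τ → f t (χ t) → f (t + 1) (χ t) := by
    intro t ht hf
    refine hstep t ht (χ t) hf ?_
    intro x hx
    cases x with
    | some v =>
      intro hall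
      rw [hone]
      exact Fc.just v t ht hx (fun u hu => (hone t u).1 (hall u hu))
    | none =>
      change χ t z = 0
      simp only [χ]
      rw [if_neg (hcon t ht)]
  have hP : ∀ t, t < τ → f t (χ t) := by
    intro t
    induction t with
    | zero => intro _; exact h0 _
    | succ t ih =>
      intro ht
      refine hloc (t + 1) ht.le (χ t) (χ (t + 1)) ?_ (hax t (by omega) (ih (by omega)))
      intro u hu
      by_cases h1 : Fc preds τ W a u t
      · have h2 := Fc.fwd u t h1 ht hu
        simp only [χ]
        rw [if_pos h1, if_pos h2]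
      · have h2 : ¬ Fc preds τ W a u (t + 1) := fun h => h1 (Fc.bwd u t h hu)
        simp only [χ]
        rw [if_neg h1, if_neg h2]
  cases τ with
  | zero => exact hτ (χ 0) (h0 _)
  | succ t => exact hτ (χ t) (hax t (by omega) (hP t (by omega)))

theorem proof_T6 : S_Walk := by
  intro V _ _ preds z s τ W f a hS
  classical
  obtain ⟨t₀, ht₀, hz⟩ := exists_forced preds z s τ W f a hS
  obtain ⟨-, -, -, -, hW⟩ := hS
  let C : ℕ → Finset V := fun t => univ.filter (fun v => Fc preds τ W a v t)
  let B : ℕ → Finset V := fun t => (C t).filter (fun v => ∃ t' < t, J preds τ W a v t' ∧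
    ∀ t'', t' ≤ t'' → t'' ≤ t → Fc preds τ W a v t'')
  have hmC : ∀ t v, v ∈ C t ↔ Fc preds τ W a v t := by
    intro t v
    simp [C]
  have hmB : ∀ t v, v ∈ B t ↔ v ∈ C t ∧ ∃ t' < t, J preds τ W a v t' ∧
      ∀ t'', t' ≤ t'' → t'' ≤ t → Fc preds τ W a v t'' := by
    intro t v
    simp [B]
  have hCempty : C τ = ∅ := by
    ext v
    simp only [hmC, Finset.notMem_empty, iff_false]
    intro h
    exact absurd h.lt (lt_irrefl _)
  have hBC : ∀ t, B t ⊆ C t := fun t => Finset.filter_subset _ _
  have hBempty : B τ = ∅ := by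
    have := hBC τ
    rw [hCempty] at this
    exact Finset.subset_empty.1 this
  have hCcard : ∀ t, (C t).card ≤ 2 * s + 1 := by
    intro t
    by_cases ht : t < τ
    · have hsub : C t ⊆ ((univ : Finset V).filter (fun v => a t = some (some v))) ∪
          (W t ∪ W (t + 1)) := by
        intro v hv
        rw [hmC] at hv
        rcases hv.cases' with h | h | h
        · exact Finset.mem_union_left _ (by simp [h])
        · exact Finset.mem_union_right _ (Finset.mem_union_left _ h)
        · exact Finset.mem_union_right _ (Finset.mem_union_right _ h)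
      have h1 : ((univ : Finset V).filter (fun v => a t = some (some v))).card ≤ 1 := by
        rw [Finset.card_le_one]
        intro x hx y hy
        simp only [Finset.mem_filter, Finset.mem_univ, true_and] at hx hy
        rw [hx] at hy
        simpa using hy
      have h2 := Finset.card_le_card hsub
      have h3 := Finset.card_union_le ((univ : Finset V).filter (fun v => a t = some (some v)))
        (W t ∪ W (t + 1))
      have h4 := Finset.card_union_le (W t) (W (t + 1))
      have h5 := hW t ht.le
      have h6 := hW (t + 1) ht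
      omega
    · have : C t = ∅ := by
        ext v
        simp only [hmC, Finset.notMem_empty, iff_false]
        intro h
        exact ht h.lt
      rw [this]
      simp
  let c : ℕ → PState V := fun n => match n with
    | 0 => (∅, ∅)
    | i + 1 => (C i, B i)
  refine ⟨τ + 1, c, ⟨rfl, ?_, ?_, ?_⟩, t₀ + 1, by omega, (hmC t₀ z).2 hz⟩
  · change (C τ, B τ) = (∅, ∅)
    rw [hCempty, hBempty]
  · intro i _
    cases i with
    | zero => exact ⟨by simp [c], by simp [c]⟩
    | succ i => exact ⟨hCcard i, hBC i⟩
  · intro i hi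
    cases i with
    | zero =>
      refine ⟨?_, ?_⟩
      · intro v hv
        simp [c] at hv
      · intro v hv
        have hv' : v ∈ B 0 := hv
        rw [hmB] at hv'
        obtain ⟨-, t', ht', -⟩ := hv'
        omega
    | succ i =>
      refine ⟨?_, ?_⟩
      · intro v hv hnv
        have hv' : Fc preds τ W a v i := (hmC i v).1 hv
        have hnv' : ¬ Fc preds τ W a v (i + 1) := fun h => hnv ((hmC (i + 1) v).2 h)
        obtain ⟨t', hJ, hI⟩ := hv'.exists_just
        have hle : t' ≤ i := by
          by_contra hgt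
          exact hnv' (hI (i + 1) (by omega))
        rcases hle.lt_or_eq with hlt | heq
        · left
          change v ∈ B i
          rw [hmB]
          exact ⟨hv, t', hlt, hJ, fun t'' h1 h2 => hI t'' (Or.inr ⟨h1, h2⟩)⟩
        · right
          intro u hu
          change u ∈ C i
          rw [hmC]
          rw [heq] at hJ
          exact hJ.2 u hu
      · intro v hv hnv
        have hv' : v ∈ B (i + 1) := hv
        have hnv' : v ∉ B i := hnv
        rw [hmB] at hv'
        obtain ⟨-, t', ht', hJ, hI⟩ := hv'
        have heq : t' = i := by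
          by_contra hne
          apply hnv'
          rw [hmB]
          exact ⟨(hmC i v).2 (hI i (by omega) (by omega)), t', by omega, hJ,
            fun t'' h1 h2 => hI t'' h1 (by omega)⟩
        intro u hu
        change u ∈ C i
        rw [hmC]
        rw [heq] at hJ
        exact hJ.2 u hu

end Pool.Agent.Helper600R2.TS.T6
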