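import Pool.Agent.Helper600R2.TS.Stm

namespace Pool.Agent.Helper600R2.TS.T7

open Finset

/-- a walk inside a finite set can be shortened -/
theorem shorten {α : Type} [DecidableEq α] (S : Finset α) (R : α → α → Prop) (x y : α) (k : ℕ) :
    ∀ c : ℕ → α, c 0 = x → c k = y → (∀ i ≤ k, c i ∈ S) → (∀ i < k, R (c i) (c (i + 1))) →
    ∃ (k' : ℕ) (c' : ℕ → α), k' + 1 ≤ S.card ∧ c' 0 = x ∧ c' k' = y ∧ (∀ i ≤ k', c' i ∈ S) ∧
      ∀ i < k', R (c' i) (c' (i + 1)) := by
  induction k using Nat.strong_induction_on with
  | _ k ih =>
  intro c h0 hk hS hR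
  by_cases hc : k + 1 ≤ S.card
  · exact ⟨k, c, hc, h0, hk, hS, hR⟩
  have hlt : S.card < (range (k + 1)).card := by
    rw [card_range]
    omega
  obtain ⟨i, hi, j, hj, hij, hcij⟩ := exists_ne_map_eq_of_card_lt_of_maps_to hlt
    (f := c) (fun n hn => hS n (by have := mem_range.mp hn; omega))
  have key : ∀ i j : ℕ, i < j → j ≤ k → c i = c j →
      ∃ (k' : ℕ) (c' : ℕ → α), k' + 1 ≤ S.card ∧ c' 0 = x ∧ c' k' = y ∧ (∀ i ≤ k', c' i ∈ S) ∧
        ∀ i < k', R (c' i) (c' (i + 1)) := by
    intro i j hij hj hcij
    refine ih (k - (j - i)) (by omega) (fun n => if n ≤ i then c n else c (n + (j - i))) ?_ ?_ ?_ ?_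
    · simp [h0]
    · by_cases h : k - (j - i) ≤ i
      · have hkj : k = j := by omega
        have : k - (j - i) = i := by omega
        simp only [this, le_refl, if_true]
        rw [hcij, ← hkj, hk]
      · simp only [h, if_false]
        have : k - (j - i) + (j - i) = k := by omega
        rw [this, hk]
    · intro n hn
      by_cases h : n ≤ i
      · simp only [h, if_true]
        exact hS n (by omega)
      · simp only [h, if_false]
        exact hS _ (by omega)
    · intro n hn
      by_cases h : n ≤ i
      · by_cases h' : n + 1 ≤ i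
        · simp only [h, h', if_true]
          exact hR n (by omega)
        · have hni : n = i := by omega
          simp only [h, h', if_true, if_false]
          have e : n + 1 + (j - i) = j + 1 := by omega
          rw [e, hni, hcij]
          exact hR j (by omega)
      · have h' : ¬ n + 1 ≤ i := by omega
        simp only [h, h', if_false]
        have e : n + 1 + (j - i) = (n + (j - i)) + 1 := by omega
        rw [e]
        exact hR _ (by omega)
  have hi' := mem_range.mp hi
  have hj' := mem_range.mp hj
  rcases lt_or_gt_of_ne hij with h | h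
  · exact key i j h (by omega) hcij
  · exact key j i h (by omega) hcij.symm

/-- sets of size at most `s` -/
theorem card_small (V : Type) [Fintype V] [DecidableEq V] (s : ℕ) :
    ((univ : Finset (Finset V)).filter (fun C => C.card ≤ s)).card ≤
      (Fintype.card V + 1) ^ s := by
  classical
  have hsub : (univ : Finset (Finset V)).filter (fun C => C.card ≤ s) ⊆
      (univ : Finset (Fin s → Option V)).image
        (fun f => univ.filter (fun v => ∃ i, f i = some v)) := by
    intro C hC
    have hCs : C.card ≤ s := (mem_filter.mp hC).2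
    rw [mem_image]
    let e := C.equivFin
    refine ⟨fun i => if h : i.val < C.card then some ((e.symm ⟨i.val, h⟩ : C) : V) else none,
      mem_univ _, ?_⟩
    ext v
    rw [mem_filter]
    constructor
    · rintro ⟨-, i, hi⟩
      by_cases h : i.val < C.card
      · simp only [h, dif_pos] at hi
        have : ((e.symm ⟨i.val, h⟩ : C) : V) = v := Option.some.inj hi
        rw [← this]
        exact (e.symm ⟨i.val, h⟩).2
      · simp only [h] at hi
        exact absurd hi (by simp)
    · intro hv
      refine ⟨mem_univ _, ⟨(e ⟨v, hv⟩).val, lt_of_lt_of_le (e ⟨v, hv⟩).2 hCs⟩, ?_⟩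
      have h : (e ⟨v, hv⟩).val < C.card := (e ⟨v, hv⟩).2
      simp only [h, dif_pos]
      have : e.symm ⟨(e ⟨v, hv⟩).val, h⟩ = ⟨v, hv⟩ := by
        rw [Fin.eta, Equiv.symm_apply_apply]
      rw [this]
  refine (card_le_card hsub).trans (card_image_le.trans ?_)
  rw [card_univ, Fintype.card_fun, Fintype.card_option, Fintype.card_fin]

/-- number of states -/
theorem card_states (V : Type) [Fintype V] [DecidableEq V] (s : ℕ) :
    ((univ : Finset (PState V)).filter (fun x => x.1.card ≤ s ∧ x.2 ⊆ x.1)).card ≤
      (Fintype.card V + 1) ^ (2 * s) := by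
  classical
  have hsub : (univ : Finset (PState V)).filter (fun x => x.1.card ≤ s ∧ x.2 ⊆ x.1) ⊆
      ((univ : Finset (Finset V)).filter (fun C => C.card ≤ s)) ×ˢ
        ((univ : Finset (Finset V)).filter (fun C => C.card ≤ s)) := by
    intro x hx
    have h := (mem_filter.mp hx).2
    rw [mem_product, mem_filter, mem_filter]
    exact ⟨⟨mem_univ _, h.1⟩, mem_univ _, (card_le_card h.2).trans h.1⟩
  refine (card_le_card hsub).trans ?_
  rw [card_product, two_mul, pow_add]
  exact Nat.mul_le_mul (card_small V s) (card_small V s)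

theorem proof_T7 : S_Short := by
  intro V _ _ preds z s k c hc hz
  classical
  obtain ⟨h0, hk, hv, hst⟩ := hc
  obtain ⟨i, hi, hzi⟩ := hz
  set S : Finset (PState V) := (univ : Finset (PState V)).filter
    (fun x => x.1.card ≤ s ∧ x.2 ⊆ x.1) with hSdef
  have hS : S.card ≤ (Fintype.card V + 1) ^ (2 * s) := card_states V s
  have hmem : ∀ j ≤ k, c j ∈ S := fun j hj => mem_filter.mpr ⟨mem_univ _, hv j hj⟩
  obtain ⟨k1, c1, hk1, h10, h1k, h1S, h1R⟩ := shorten S (PStep preds) (∅, ∅) (c i) i c h0 rfl
    (fun j hj => hmem j (by omega)) (fun j hj => hst j (by omega))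
  obtain ⟨k2, c2, hk2, h20, h2k, h2S, h2R⟩ := shorten S (PStep preds) (c i) (∅, ∅) (k - i)
    (fun n => c (i + n)) (by simp) (by
      have : i + (k - i) = k := by omega
      simp only [this, hk])
    (fun j hj => hmem _ (by omega)) (fun j hj => hst _ (by omega))
  refine ⟨k1 + k2, fun n => if n ≤ k1 then c1 n else c2 (n - k1), ?_, ⟨?_, ?_, ?_, ?_⟩, ?_⟩
  · omega
  · simp [h10]
  · by_cases h : k1 + k2 ≤ k1
    · have h2 : k2 = 0 := by omega
      subst h2
      simp only [add_zero, le_refl, if_true]
      rw [h1k, ← h20, h2k]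
    · simp only [h, if_false]
      have : k1 + k2 - k1 = k2 := by omega
      rw [this, h2k]
  · intro n hn
    by_cases h : n ≤ k1
    · simp only [h, if_true]
      exact (mem_filter.mp (h1S n h)).2
    · simp only [h, if_false]
      exact (mem_filter.mp (h2S _ (by omega))).2
  · intro n hn
    by_cases h : n ≤ k1
    · by_cases h' : n + 1 ≤ k1
      · simp only [h, h', if_true]
        exact h1R n (by omega)
      · have hn1 : n = k1 := by omega
        simp only [h, h', if_true, if_false]
        have e : n + 1 - k1 = 0 + 1 := by omega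
        rw [e, hn1, h1k, ← h20]
        exact h2R 0 (by omega)
    · have h' : ¬ n + 1 ≤ k1 := by omega
      simp only [h, h', if_false]
      have e : n + 1 - k1 = (n - k1) + 1 := by omega
      rw [e]
      exact h2R _ (by omega)
  · refine ⟨k1, by omega, ?_⟩
    simp only [le_refl, if_true]
    rw [h1k]
    exact hzi

end Pool.Agent.Helper600R2.TS.T7
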