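import Pool.Agent.Helper600R2.TS.Stm

namespace Pool.Agent.Helper600R2.TS.T8

open Finset

theorem lemA {V : Type} {preds : V → Finset V} {s k : ℕ} {c : ℕ → PState V}
    (hw : IsWalk preds s k c) {a t b : ℕ} (hat : a ≤ t) (htb : t ≤ b) (hbk : b ≤ k) {v : V}
    (hv : v ∈ (c t).1) (hva : v ∉ (c a).1) (hvb : v ∉ (c b).1) :
    ∃ t1, a ≤ t1 ∧ t1 < b ∧ preds v ⊆ (c t1).1 := by
  obtain ⟨t2, ht2, ht2b, hin, hout⟩ :
      ∃ t2, t ≤ t2 ∧ t2 < b ∧ v ∈ (c t2).1 ∧ v ∉ (c (t2 + 1)).1 := by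
    by_contra hcon
    push Not at hcon
    have h1 : ∀ n, t + n ≤ b → v ∈ (c (t + n)).1 := by
      intro n
      induction n with
      | zero => intro _; exact hv
      | succ n ih =>
        intro h
        exact hcon (t + n) (by omega) (by omega) (ih (by omega))
    have h2 := h1 (b - t) (by omega)
    rw [show t + (b - t) = b by omega] at h2
    exact hvb h2
  rcases (hw.2.2.2 t2 (by omega)).1 v hin hout with h | h
  · have hBa : v ∉ (c a).2 := fun h' => hva ((hw.2.2.1 a (by omega)).2 h')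
    obtain ⟨t1, h1, h2, h3, h4⟩ :
        ∃ t1, a ≤ t1 ∧ t1 < t2 ∧ v ∉ (c t1).2 ∧ v ∈ (c (t1 + 1)).2 := by
      by_contra hcon
      push Not at hcon
      have h1 : ∀ n, a + n ≤ t2 → v ∉ (c (a + n)).2 := by
        intro n
        induction n with
        | zero => intro _; exact hBa
        | succ n ih =>
          intro h
          exact hcon (a + n) (by omega) (by omega) (ih (by omega))
      have h2 := h1 (t2 - a) (by omega)
      rw [show a + (t2 - a) = t2 by omega] at h2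
      exact h2 h
    exact ⟨t1, h1, by omega, (hw.2.2.2 t1 (by omega)).2 v h4 h3⟩
  · exact ⟨t2, by omega, ht2b, h⟩

section

variable {L M s k : ℕ} {c : ℕ → PState (DV L M)}

theorem lemB (hw : IsWalk (dpreds L M) s k c) {i : ℕ} (hi : i + 1 < L + 2) (j last : Fin M)
    (hlast : last.val + 1 = M) {a b t : ℕ} (hat : a ≤ t) (htb : t ≤ b) (hbk : b ≤ k)
    (hz : (((⟨i + 1, hi⟩, j, last) : DV L M)) ∈ (c t).1)
    (ha : ∀ l : Fin M, (((⟨i + 1, hi⟩, j, l) : DV L M)) ∉ (c a).1)
    (hb : ∀ l : Fin M, (((⟨i + 1, hi⟩, j, l) : DV L M)) ∉ (c b).1) (l : Fin M) :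
    ∃ t', a ≤ t' ∧ t' ≤ b ∧ (((⟨i, by omega⟩, l, last) : DV L M)) ∈ (c t').1 := by
  have hall : ∀ n : ℕ, ∀ l : Fin M, l.val + n + 1 = M →
      ∃ t', a ≤ t' ∧ t' ≤ b ∧ (((⟨i + 1, hi⟩, j, l) : DV L M)) ∈ (c t').1 := by
    intro n
    induction n with
    | zero =>
      intro l hl
      have : l = last := Fin.ext (by omega)
      subst this
      exact ⟨t, hat, htb, hz⟩
    | succ n ih =>
      intro l hl
      have hlt : l.val + 1 < M := by omega
      obtain ⟨t', h1, h2, h3⟩ := ih ⟨l.val + 1, hlt⟩ (by simp only; omega)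
      obtain ⟨t1, h4, h5, h6⟩ := lemA hw h1 h2 hbk h3 (ha _) (hb _)
      refine ⟨t1, h4, h5.le, h6 ?_⟩
      unfold dpreds
      rw [mem_filter]
      refine ⟨mem_univ _, Or.inl ⟨rfl, rfl, rfl, ?_⟩⟩
      simp
  obtain ⟨t', h1, h2, h3⟩ := hall (M - 1 - l.val) l (by have := l.2; omega)
  obtain ⟨t1, h4, h5, h6⟩ := lemA hw h1 h2 hbk h3 (ha _) (hb _)
  refine ⟨t1, h4, h5.le, h6 ?_⟩
  unfold dpreds
  rw [mem_filter]
  exact ⟨mem_univ _, Or.inr ⟨rfl, rfl, hlast⟩⟩

open Classical in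
noncomputable def Tch (c : ℕ → PState (DV L M)) (last : Fin M) (i : Fin (L + 2)) (a b : ℕ) :
    Finset (Fin M) :=
  univ.filter (fun j => ∃ t, a ≤ t ∧ t ≤ b ∧ (((i, j, last) : DV L M)) ∈ (c t).1)

theorem Tch_self (hw : IsWalk (dpreds L M) s k c) (last : Fin M) (i : Fin (L + 2)) {a : ℕ}
    (ha : a ≤ k) : (Tch c last i a a).card ≤ s := by
  classical
  have h1 : Tch c last i a a ⊆ ((c a).1).image (fun v : DV L M => v.2.1) := by
    intro j hj
    unfold Tch at hj
    rw [mem_filter] at hj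
    obtain ⟨-, t, h1, h2, h3⟩ := hj
    have : t = a := by omega
    subst this
    rw [mem_image]
    exact ⟨_, h3, rfl⟩
  exact (card_le_card h1).trans (card_image_le.trans (hw.2.2.1 a ha).1)

theorem Tch_sub (last : Fin M) (i : Fin (L + 2)) (a d b : ℕ) :
    Tch c last i a b ⊆ Tch c last i a d ∪ Tch c last i (d + 1) b := by
  classical
  intro j hj
  unfold Tch at hj ⊢
  rw [mem_filter] at hj
  obtain ⟨-, t, h1, h2, h3⟩ := hj
  rw [mem_union, mem_filter, mem_filter]
  by_cases h : t ≤ d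
  · exact Or.inl ⟨mem_univ _, t, h1, h, h3⟩
  · exact Or.inr ⟨mem_univ _, t, by omega, h2, h3⟩

theorem lemC (hw : IsWalk (dpreds L M) s k c) (hM : 5 * s + 1 ≤ M) (last : Fin M)
    (hlast : last.val + 1 = M) (i : ℕ) : ∀ (hi : i < L + 2) (a b : ℕ), a ≤ b → b ≤ k →
    2 * s + 1 ≤ (Tch c last ⟨i, hi⟩ a b).card → 2 ^ i ≤ b - a + 1 := by
  classical
  induction i with
  | zero => intro hi a b _ _ _; omega
  | succ i ih =>
    intro hi a b hab hbk hT
    -- an untouched chain
    obtain ⟨j, hj, hjn⟩ : ∃ j ∈ Tch c last ⟨i + 1, hi⟩ a b,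
        j ∉ ((c a).1 ∪ (c b).1).image (fun v : DV L M => v.2.1) := by
      by_contra hcon
      push Not at hcon
      have h1 := card_le_card hcon
      have h2 : (((c a).1 ∪ (c b).1).image (fun v : DV L M => v.2.1)).card ≤ s + s :=
        card_image_le.trans ((card_union_le _ _).trans
          (add_le_add (hw.2.2.1 a (by omega)).1 (hw.2.2.1 b hbk).1))
      omega
    have hja : ∀ l : Fin M, (((⟨i + 1, hi⟩, j, l) : DV L M)) ∉ (c a).1 := by
      intro l hl
      exact hjn (mem_image.2 ⟨_, mem_union_left _ hl, rfl⟩)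
    have hjb : ∀ l : Fin M, (((⟨i + 1, hi⟩, j, l) : DV L M)) ∉ (c b).1 := by
      intro l hl
      exact hjn (mem_image.2 ⟨_, mem_union_right _ hl, rfl⟩)
    have hj' := hj
    unfold Tch at hj'
    rw [mem_filter] at hj'
    obtain ⟨-, t, ht1, ht2, ht3⟩ := hj'
    have hi' : i < L + 2 := by omega
    have huniv : Tch c last ⟨i, hi'⟩ a b = univ := by
      rw [eq_univ_iff_forall]
      intro l
      unfold Tch
      rw [mem_filter]
      exact ⟨mem_univ _, lemB hw hi j last hlast ht1 ht2 hbk ht3 hja hjb l⟩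
    have hcard : (Tch c last ⟨i, hi'⟩ a b).card = M := by
      rw [huniv, card_univ, Fintype.card_fin]
    -- the first time when 2s+1 chains are touched
    have hex : ∃ n, 2 * s + 1 ≤ (Tch c last ⟨i, hi'⟩ a (a + n)).card :=
      ⟨b - a, by rw [show a + (b - a) = b by omega, hcard]; omega⟩
    obtain ⟨n, hn1, hn2⟩ : ∃ n, 2 * s + 1 ≤ (Tch c last ⟨i, hi'⟩ a (a + n)).card ∧
        ∀ n' < n, ¬ 2 * s + 1 ≤ (Tch c last ⟨i, hi'⟩ a (a + n')).card :=
      ⟨Nat.find hex, Nat.find_spec hex, fun n' hn' => Nat.find_min hex hn'⟩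
    have hnb : a + n ≤ b := by
      by_contra hcon
      have := hn2 (b - a) (by omega)
      rw [show a + (b - a) = b by omega, hcard] at this
      omega
    have hn0 : n ≠ 0 := by
      rintro rfl
      have := Tch_self hw last ⟨i, hi'⟩ (show a ≤ k by omega)
      simp only [add_zero] at hn1
      omega
    obtain ⟨n', rfl⟩ : ∃ n', n = n' + 1 := ⟨n - 1, by omega⟩
    have h1 := hn2 n' (by omega)
    have h2 := card_le_card (Tch_sub (c := c) last ⟨i, hi'⟩ a (a + n') (a + (n' + 1)))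
    have h3 := Tch_self hw last ⟨i, hi'⟩ (show a + n' + 1 ≤ k by omega)
    have h4 := card_union_le (Tch c last ⟨i, hi'⟩ a (a + n'))
      (Tch c last ⟨i, hi'⟩ (a + n' + 1) (a + (n' + 1)))
    rw [← add_assoc] at h2 h4 hn1
    have h5 := card_le_card (Tch_sub (c := c) last ⟨i, hi'⟩ a (a + n' + 1) b)
    have h6 := card_union_le (Tch c last ⟨i, hi'⟩ a (a + n' + 1))
      (Tch c last ⟨i, hi'⟩ (a + n' + 1 + 1) b)
    rw [hcard] at h5
    have h7 : 2 * s + 1 ≤ (Tch c last ⟨i, hi'⟩ (a + n' + 1 + 1) b).card := by omega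
    have h8 : a + n' + 1 + 1 ≤ b := by
      by_contra hcon
      have : Tch c last ⟨i, hi'⟩ (a + n' + 1 + 1) b = ∅ := by
        rw [eq_empty_iff_forall_notMem]
        intro j hj
        unfold Tch at hj
        rw [mem_filter] at hj
        obtain ⟨-, t, h1, h2, h3⟩ := hj
        omega
      rw [this, card_empty] at h7
      omega
    have h9 := ih hi' a (a + n' + 1) (by omega) (by omega) hn1
    have h10 := ih hi' (a + n' + 1 + 1) b h8 hbk h7
    rw [pow_succ]
    omega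

end

theorem proof_T8 : S_Long := by
  classical
  intro L M s k c z hM hz1 hz2 hw hex
  obtain ⟨t, ht, hzt⟩ := hex
  obtain ⟨zi, j, last⟩ := z
  simp only at hz1 hz2
  obtain ⟨zv, hzv⟩ := zi
  simp only at hz1
  subst hz1
  have h0 : ∀ l : Fin M, (((⟨L + 1, by omega⟩, j, l) : DV L M)) ∉ (c 0).1 := by
    intro l
    rw [hw.1]
    simp
  have h1 : ∀ l : Fin M, (((⟨L + 1, by omega⟩, j, l) : DV L M)) ∉ (c k).1 := by
    intro l
    rw [hw.2.1]
    simp
  have huniv : Tch c last ⟨L, by omega⟩ 0 k = univ := by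
    rw [eq_univ_iff_forall]
    intro l
    unfold Tch
    rw [mem_filter]
    exact ⟨mem_univ _, lemB hw (i := L) (by omega) j last hz2 (Nat.zero_le t) ht le_rfl hzt h0 h1 l⟩
  have h2 := lemC hw hM last hz2 L (by omega) 0 k (Nat.zero_le k) le_rfl (by
    rw [huniv, card_univ, Fintype.card_fin]; omega)
  simpa using h2

end Pool.Agent.Helper600R2.TS.T8
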