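import Pool.Agent.Helper600R2.TS.Stm

/-! T9: expanding matrices with light rows (counting) -/

namespace Pool.Agent.Helper600R2.TS.T9

open Finset

set_option linter.unusedSectionVars false

section

variable {V : Type} [Fintype V] [DecidableEq V] {N d : ℕ}

/-- the matrix of a choice function -/
def mat (t : V × Fin d → Fin N) (u : V) (j : Fin N) : ZMod 2 :=
  ∑ i : Fin d, if t (u, i) = j then 1 else 0

theorem supp_mat (t : V × Fin d → Fin N) (u : V) : (supp (mat t u)).card ≤ d := by
  have hsub : supp (mat t u) ⊆ (univ : Finset (Fin d)).image (fun i => t (u, i)) := by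
    intro j hj
    rw [supp, mem_filter] at hj
    by_contra hcon
    apply hj.2
    unfold mat
    apply Finset.sum_eq_zero
    intro i _
    rw [if_neg]
    intro h
    exact hcon (mem_image.2 ⟨i, mem_univ i, h⟩)
  calc _ ≤ _ := card_le_card hsub
    _ ≤ _ := card_image_le
    _ = d := by simp

theorem hS_mat (t : V × Fin d → Fin N) (S : Finset V) (j : Fin N) :
    hS (mat t) S j = (((S ×ˢ (univ : Finset (Fin d))).filter (fun p => t p = j)).card : ZMod 2) := by
  unfold hS mat
  rw [← Finset.sum_product (f := fun p : V × Fin d => if t p = j then (1 : ZMod 2) else 0),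
    Finset.sum_boole]

/-- few odd values imply few values -/
theorem parity (t : V × Fin d → Fin N) (S : Finset V) :
    2 * ((S ×ˢ (univ : Finset (Fin d))).image t).card ≤
      (S ×ˢ (univ : Finset (Fin d))).card + (supp (hS (mat t) S)).card := by
  set Q := S ×ˢ (univ : Finset (Fin d)) with hQ
  have h1 : Q.card = ∑ b ∈ Q.image t, (Q.filter (fun a => t a = b)).card :=
    Finset.card_eq_sum_card_image t Q
  have h2 : ∀ b ∈ Q.image t,
      2 ≤ (Q.filter (fun a => t a = b)).card + (if b ∈ supp (hS (mat t) S) then 1 else 0) := by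
    intro b hb
    have hpos : 0 < (Q.filter (fun a => t a = b)).card := by
      obtain ⟨a, ha, hab⟩ := mem_image.1 hb
      exact card_pos.2 ⟨a, mem_filter.2 ⟨ha, hab⟩⟩
    split_ifs with hs
    · omega
    · have h0 : hS (mat t) S b = 0 := by
        by_contra hne
        exact hs (mem_filter.2 ⟨mem_univ b, hne⟩)
      rw [hS_mat, ZMod.natCast_eq_zero_iff_even] at h0
      obtain ⟨k, hk⟩ := h0
      rw [← hQ] at hk
      omega
  have h3 := Finset.sum_le_sum h2
  rw [Finset.sum_const, Finset.sum_add_distrib, ← h1, Finset.sum_ite_mem, Finset.sum_const,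
    smul_eq_mul, smul_eq_mul, mul_one] at h3
  have h4 : (Q.image t ∩ supp (hS (mat t) S)).card ≤ (supp (hS (mat t) S)).card :=
    card_le_card inter_subset_right
  omega

end

section

variable {P : Type} [Fintype P] [DecidableEq P] {N : ℕ}

/-- pointers -/
theorem pointers (t : P → Fin N) (Q : Finset P) (k : ℕ) (h : (Q.image t).card + k ≤ Q.card) :
    ∃ C ⊆ Q, C.card = k ∧ ∃ φ : C → Q, ∀ p : C, (φ p : P) ∉ C ∧ t (φ p) = t p := by
  classical
  rcases isEmpty_or_nonempty P with hP | hP
  · have hQ : Q.card = 0 := by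
      rw [card_eq_zero]
      exact eq_empty_of_isEmpty Q
    exact ⟨∅, empty_subset _, by simp; omega, fun p => hP.elim p.1, fun p => hP.elim p.1⟩
  have hex : ∀ v : Fin N, v ∈ Q.image t → ∃ p ∈ Q, t p = v := fun v hv => by
    obtain ⟨p, hp, hpv⟩ := mem_image.1 hv
    exact ⟨p, hp, hpv⟩
  choose! rep hrepQ hrept using hex
  set F := (Q.image t).image rep with hF
  have hFc : F.card ≤ (Q.image t).card := card_image_le
  have hR : k ≤ (Q \ F).card := by
    have := Finset.le_card_sdiff F Q
    omega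
  obtain ⟨C, hC, hCk⟩ := Finset.exists_subset_card_eq hR
  have hCQ : C ⊆ Q := hC.trans sdiff_subset
  refine ⟨C, hCQ, hCk, fun p => ⟨rep (t p), hrepQ _ (mem_image_of_mem t (hCQ p.2))⟩, ?_⟩
  intro p
  refine ⟨?_, hrept _ (mem_image_of_mem t (hCQ p.2))⟩
  intro hmem
  have h1 := mem_sdiff.1 (hC hmem)
  apply h1.2
  exact mem_image_of_mem rep (mem_image_of_mem t (hCQ p.2))

/-- functions constrained by pointers -/
theorem count_one (C Q : Finset P) (φ : C → Q) (hφ : ∀ p : C, (φ p : P) ∉ C) :
    (univ.filter (fun t : P → Fin N => ∀ p : C, t (φ p) = t p)).card ≤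
      N ^ (Fintype.card P - C.card) := by
  classical
  have h1 : (univ.filter (fun t : P → Fin N => ∀ p : C, t (φ p) = t p)).card ≤
      (univ : Finset ({p // p ∉ C} → Fin N)).card := by
    apply Finset.card_le_card_of_injOn (fun t p => t p.1) (fun t _ => mem_coe.2 (mem_univ _))
    intro t ht t' ht' htt
    have ht1 := (mem_filter.1 (mem_coe.1 ht)).2
    have ht2 := (mem_filter.1 (mem_coe.1 ht')).2
    have hout : ∀ p, p ∉ C → t p = t' p := fun p hp => congrFun htt ⟨p, hp⟩
    funext p
    by_cases hp : p ∈ C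
    · rw [← ht1 ⟨p, hp⟩, ← ht2 ⟨p, hp⟩]
      exact hout _ (hφ ⟨p, hp⟩)
    · exact hout p hp
  refine h1.trans (le_of_eq ?_)
  rw [card_univ, Fintype.card_fun, Fintype.card_fin]
  congr 1
  rw [Fintype.card_subtype_compl, Fintype.card_coe]

/-- the number of functions with few values on `Q` -/
theorem count_bad (Q : Finset P) (k : ℕ) :
    (univ.filter (fun t : P → Fin N => (Q.image t).card + k ≤ Q.card)).card ≤
      2 ^ Q.card * (Q.card ^ k * N ^ (Fintype.card P - k)) := by
  classical
  have hsub : univ.filter (fun t : P → Fin N => (Q.image t).card + k ≤ Q.card) ⊆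
      (Q.powersetCard k).biUnion (fun C => (univ : Finset (C → Q)).biUnion (fun φ =>
        if (∀ p : C, (φ p : P) ∉ C) then
          univ.filter (fun t : P → Fin N => ∀ p : C, t (φ p) = t p) else ∅)) := by
    intro t ht
    obtain ⟨C, hCQ, hCk, φ, hφ⟩ := pointers t Q k (mem_filter.1 ht).2
    rw [mem_biUnion]
    refine ⟨C, mem_powersetCard.2 ⟨hCQ, hCk⟩, ?_⟩
    rw [mem_biUnion]
    refine ⟨φ, mem_univ φ, ?_⟩
    rw [if_pos (fun p => (hφ p).1)]
    exact mem_filter.2 ⟨mem_univ t, fun p => (hφ p).2⟩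
  refine (card_le_card hsub).trans ?_
  have hb : ∀ C ∈ Q.powersetCard k, ((univ : Finset (C → Q)).biUnion (fun φ =>
        if (∀ p : C, (φ p : P) ∉ C) then
          univ.filter (fun t : P → Fin N => ∀ p : C, t (φ p) = t p) else ∅)).card ≤
      Q.card ^ k * N ^ (Fintype.card P - k) := by
    intro C hC
    have hCk := (mem_powersetCard.1 hC).2
    refine (Finset.card_biUnion_le_card_mul _ _ (N ^ (Fintype.card P - k)) ?_).trans (le_of_eq ?_)
    · intro φ _
      split_ifs with hφ
      · rw [← hCk]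
        exact count_one C Q φ hφ
      · simp
    · rw [card_univ, Fintype.card_fun, Fintype.card_coe, Fintype.card_coe, hCk]
  refine (Finset.card_biUnion_le_card_mul _ _ _ hb).trans ?_
  apply Nat.mul_le_mul_right
  rw [← card_powerset]
  exact card_le_card (fun C hC => mem_powerset.2 (mem_powersetCard.1 hC).1)

end

theorem sum_small (V : Type) [Fintype V] [DecidableEq V] :
    ∑ S ∈ (univ : Finset V).powerset, (1 / (4 * (Fintype.card V : ℝ))) ^ S.card < 2 := by
  have h := Finset.sum_pow_mul_eq_add_pow (1 / (4 * (Fintype.card V : ℝ))) 1 (univ : Finset V)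
  simp only [one_pow, mul_one] at h
  rw [h, card_univ]
  set n := (Fintype.card V : ℝ) with hn
  have h1 : (1 / (4 * n) + 1) ≤ Real.exp (1 / (4 * n)) := Real.add_one_le_exp _
  have hn0 : 0 ≤ n := Nat.cast_nonneg _
  have h2 : (1 / (4 * n) + 1) ^ Fintype.card V ≤ Real.exp (1 / (4 * n)) ^ Fintype.card V :=
    pow_le_pow_left₀ (by positivity) h1 _
  rw [← Real.exp_nat_mul] at h2
  have h3 : (Fintype.card V : ℝ) * (1 / (4 * n)) ≤ 1 / 4 := by
    rw [← hn]
    rcases hn0.eq_or_lt with h0 | h0
    · rw [← h0]; norm_num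
    · apply le_of_eq
      field_simp
  have h4 : Real.exp ((Fintype.card V : ℝ) * (1 / (4 * n))) ≤ Real.exp (1 / 4) :=
    Real.exp_le_exp.2 h3
  have h5 : Real.exp (1 / 4) < 2 := by
    have h6 : Real.exp (1 / 4) ^ 4 < 2 ^ 4 := by
      rw [← Real.exp_nat_mul]
      have : ((4 : ℕ) : ℝ) * (1 / 4) = 1 := by norm_num
      rw [this]
      have := Real.exp_one_lt_d9
      linarith
    exact lt_of_pow_lt_pow_left₀ 4 (by norm_num) h6
  linarith

theorem proof_T9 : S_Expander := by
  intro V _ _ N e r hN he hN1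
  set d := 2 * e + 4 with hd
  by_contra hcon
  push Not at hcon
  -- every choice is bad for some set
  have hbad : ∀ t : V × Fin d → Fin N, ∃ S : Finset V, S.Nonempty ∧ S.card ≤ r ∧
      ((S ×ˢ (univ : Finset (Fin d))).image t).card + e * S.card ≤
        (S ×ˢ (univ : Finset (Fin d))).card := by
    intro t
    have h1 := hcon (mat t) (supp_mat t)
    unfold Expands at h1
    push Not at h1
    obtain ⟨S, hS1, hS2, hS3⟩ := h1
    refine ⟨S, hS1, hS2, ?_⟩
    have h2 := parity t S
    have h3 : (S ×ˢ (univ : Finset (Fin d))).card = S.card * d := by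
      rw [card_product, card_univ, Fintype.card_fin]
    have h4 : S.card * d = 2 * (e * S.card) + 4 * S.card := by rw [hd]; ring
    omega
  set G := (univ : Finset V).powerset.filter (fun S => S.Nonempty ∧ S.card ≤ r) with hG
  have hcover : (univ : Finset (V × Fin d → Fin N)) ⊆ G.biUnion (fun S =>
      univ.filter (fun t : V × Fin d → Fin N =>
        ((S ×ˢ (univ : Finset (Fin d))).image t).card + e * S.card ≤
        (S ×ˢ (univ : Finset (Fin d))).card)) := by
    intro t _
    obtain ⟨S, h1, h2, h3⟩ := hbad t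
    rw [mem_biUnion]
    exact ⟨S, mem_filter.2 ⟨mem_powerset.2 (subset_univ S), h1, h2⟩, mem_filter.2 ⟨mem_univ t, h3⟩⟩
  have hcard := (card_le_card hcover).trans card_biUnion_le
  rw [card_univ, Fintype.card_fun, Fintype.card_fin] at hcard
  set p := Fintype.card (V × Fin d) with hp
  have hN0 : (0 : ℝ) < N := by exact_mod_cast hN1
  have hterm : ∀ S ∈ G, ((univ.filter (fun t : V × Fin d → Fin N =>
        ((S ×ˢ (univ : Finset (Fin d))).image t).card + e * S.card ≤
        (S ×ˢ (univ : Finset (Fin d))).card)).card : ℝ) ≤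
      (N : ℝ) ^ p * (1 / (4 * (Fintype.card V : ℝ))) ^ S.card := by
    intro S hS
    obtain ⟨-, hS1, hS2⟩ := mem_filter.1 hS
    have h1 := count_bad (N := N) (S ×ˢ (univ : Finset (Fin d))) (e * S.card)
    have h3 : (S ×ˢ (univ : Finset (Fin d))).card = S.card * d := by
      rw [card_product, card_univ, Fintype.card_fin]
    have hVpos : 0 < Fintype.card V := by
      obtain ⟨v, _⟩ := hS1
      exact Fintype.card_pos_iff.2 ⟨v⟩
    have hVpos' : (0 : ℝ) < Fintype.card V := by exact_mod_cast hVpos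
    have hSV : S.card ≤ Fintype.card V := card_le_univ S
    have hle : e * S.card ≤ p := by
      rw [hp, Fintype.card_prod, Fintype.card_fin]
      calc e * S.card ≤ d * Fintype.card V := Nat.mul_le_mul (by omega) hSV
        _ = Fintype.card V * d := mul_comm _ _
    rw [h3] at h1
    have h1' : ((univ.filter (fun t : V × Fin d → Fin N =>
        ((S ×ˢ (univ : Finset (Fin d))).image t).card + e * S.card ≤
        (S ×ˢ (univ : Finset (Fin d))).card)).card : ℝ) ≤
        2 ^ (S.card * d) * (((S.card * d : ℕ) : ℝ) ^ (e * S.card) * (N : ℝ) ^ (p - e * S.card)) := by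
      rw [h3]
      exact_mod_cast h1
    refine h1'.trans ?_
    have h4 : (N : ℝ) ^ (p - e * S.card) = (N : ℝ) ^ p / ((N : ℝ) ^ e) ^ S.card := by
      rw [← pow_mul, eq_div_iff (by positivity), ← pow_add, Nat.sub_add_cancel hle]
    have h5 : (((S.card * d : ℕ) : ℝ)) ^ (e * S.card) ≤ (((d * r : ℕ) : ℝ) ^ e) ^ S.card := by
      rw [← pow_mul]
      apply pow_le_pow_left₀ (Nat.cast_nonneg _)
      rw [mul_comm d r]
      exact_mod_cast Nat.mul_le_mul_right d hS2
    have h6 : (2 : ℝ) ^ (S.card * d) = ((2 : ℝ) ^ d) ^ S.card := by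
      rw [← pow_mul, mul_comm]
    rw [h4, h6]
    have h7 : (2 : ℝ) ^ d * ((d * r : ℕ) : ℝ) ^ e / (N : ℝ) ^ e ≤ 1 / (4 * (Fintype.card V : ℝ)) := by
      rw [div_le_div_iff₀ (by positivity) (by positivity)]
      have := hN
      have h8 : ((4 * Fintype.card V * 2 ^ d * (d * r) ^ e : ℕ) : ℝ) ≤ ((N ^ e : ℕ) : ℝ) := by
        exact_mod_cast this
      push_cast at h8 ⊢
      linarith
    calc ((2 : ℝ) ^ d) ^ S.card * ((((S.card * d : ℕ) : ℝ)) ^ (e * S.card) *
          ((N : ℝ) ^ p / ((N : ℝ) ^ e) ^ S.card))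
        ≤ ((2 : ℝ) ^ d) ^ S.card * ((((d * r : ℕ) : ℝ) ^ e) ^ S.card *
          ((N : ℝ) ^ p / ((N : ℝ) ^ e) ^ S.card)) := by
          apply mul_le_mul_of_nonneg_left _ (by positivity)
          exact mul_le_mul_of_nonneg_right h5 (by positivity)
      _ = (N : ℝ) ^ p * ((2 : ℝ) ^ d * ((d * r : ℕ) : ℝ) ^ e / (N : ℝ) ^ e) ^ S.card := by
          rw [div_pow, mul_pow]
          ring
      _ ≤ (N : ℝ) ^ p * (1 / (4 * (Fintype.card V : ℝ))) ^ S.card := by
          apply mul_le_mul_of_nonneg_left _ (by positivity)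
          exact pow_le_pow_left₀ (by positivity) h7 _
  have hsum : ((N : ℝ) ^ p) ≤ (N : ℝ) ^ p *
      ∑ S ∈ G, (1 / (4 * (Fintype.card V : ℝ))) ^ S.card := by
    rw [Finset.mul_sum]
    have : ((N ^ p : ℕ) : ℝ) ≤ ((∑ S ∈ G, (univ.filter (fun t : V × Fin d → Fin N =>
        ((S ×ˢ (univ : Finset (Fin d))).image t).card + e * S.card ≤
        (S ×ˢ (univ : Finset (Fin d))).card)).card : ℕ) : ℝ) := by exact_mod_cast hcard
    push_cast at this
    exact this.trans (Finset.sum_le_sum hterm)
  have hlt : ∑ S ∈ G, (1 / (4 * (Fintype.card V : ℝ))) ^ S.card < 1 := by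
    have h1 := sum_small V
    have h2 : ∑ S ∈ insert ∅ G, (1 / (4 * (Fintype.card V : ℝ))) ^ S.card ≤
        ∑ S ∈ (univ : Finset V).powerset, (1 / (4 * (Fintype.card V : ℝ))) ^ S.card := by
      apply Finset.sum_le_sum_of_subset_of_nonneg
      · intro S _
        exact mem_powerset.2 (subset_univ S)
      · intro S _ _
        positivity
    rw [Finset.sum_insert (by simp [hG])] at h2
    simp only [card_empty, pow_zero] at h2
    linarith
  have hpos : (0 : ℝ) < (N : ℝ) ^ p := by positivity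
  nlinarith

end Pool.Agent.Helper600R2.TS.T9
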