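import Pool.Agent.Helper600R2.TS.Asm
import Pool.Agent.Helper600R2.TS.T1
import Pool.Agent.Helper600R2.TS.T2
import Pool.Agent.Helper600R2.TS.T3
import Pool.Agent.Helper600R2.TS.T4
import Pool.Agent.Helper600R2.TS.T5
import Pool.Agent.Helper600R2.TS.T6
import Pool.Agent.Helper600R2.TS.T7
import Pool.Agent.Helper600R2.TS.T8
import Pool.Agent.Helper600R2.TS.T9
import Pool.Agent.Helper600R2.TS.T10
import Pool.Agent.Helper600R2.TS.T11
import Pool.Agent.Helper600R2.TS.T12

/-! The main theorem, and soundness of refutations. -/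

namespace Pool.Agent.Helper600R2.TS

open Finset

/-- `F` has a satisfying assignment. -/
def Satisfiable {N : ℕ} (F : Finset (Cl N)) : Prop :=
  ∃ x : Fin N → Bool, ∀ C ∈ F, ∃ l ∈ C, x l.1 = l.2

theorem unsat_of_refutation {N : ℕ} {F : Finset (Cl N)} {s : ℕ} {π : ℕ → Cl N}
    (h : IsRefutation F s π) : ¬ Satisfiable F := by
  rintro ⟨x, hx⟩
  obtain ⟨h0, h1, h2⟩ := h
  have key : ∀ i, i < s → ∃ l ∈ π i, x l.1 = l.2 := by
    intro i
    induction i using Nat.strong_induction_on with
    | _ i ih =>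
      intro hi
      rcases h2 i hi with hF | ⟨j, hj, k, hk, v, hv1, hv2, hv3⟩
      · exact hx _ hF
      · obtain ⟨l, hl, hxl⟩ := ih j hj (hj.trans hi)
        obtain ⟨l', hl', hxl'⟩ := ih k hk (hk.trans hi)
        rw [hv3]
        by_cases e : l = (v, true)
        · by_cases e' : l' = (v, false)
          · subst e e'
            simp only at hxl hxl'
            rw [hxl] at hxl'
            exact absurd hxl' (by decide)
          · exact ⟨l', mem_union_right _ (mem_erase.2 ⟨e', hl'⟩), hxl'⟩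
        · exact ⟨l, mem_union_left _ (mem_erase.2 ⟨e, hl⟩), hxl⟩
  obtain ⟨l, hl, _⟩ := key (s - 1) (by omega)
  rw [h1] at hl
  exact absurd hl (notMem_empty l)

theorem main : S_Main :=
  main_asm T1.proof_T1 T2.proof_T2 T3.proof_T3 T4.proof_T4 T5.proof_T5 T6.proof_T6 T7.proof_T7
    T8.proof_T8 T9.proof_T9 T10.proof_T10 T11.proof_T11 T12.proof_T12

end Pool.Agent.Helper600R2.TS
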