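import Pool.Agent.Helper600R2.TS.Defs

/-! Statements of the modules (all dependencies are hypotheses). -/

namespace Pool.Agent.Helper600R2.TS

open Finset

section

variable {V : Type} [Fintype V] [DecidableEq V] {N : ℕ}

/-- facts about local consistency -/
structure ConsFacts (h : V → Fin N → ZMod 2) (r : ℕ) : Prop where
  mono : ∀ (χ : V → ZMod 2) (A B : Finset (Fin N)) (y : Fin N → ZMod 2), A ⊆ B →
    Cons h r χ B y → Cons h r χ A y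
  congr : ∀ (χ : V → ZMod 2) (A : Finset (Fin N)) (y y' : Fin N → ZMod 2),
    (∀ j ∈ A, y j = y' j) → Cons h r χ A y → Cons h r χ A y'
  empty : ∀ (χ : V → ZMod 2) (y : Fin N → ZMod 2), Cons h r χ ∅ y
  extend : ∀ (χ : V → ZMod 2) (A B : Finset (Fin N)) (y : Fin N → ZMod 2), A ⊆ B →
    B.card ≤ 2 * r → Cons h r χ A y → ∃ y', (∀ j ∈ A, y' j = y j) ∧ Cons h r χ B y'
  free : ∀ (χ : V → ZMod 2) (A : Finset (Fin N)) (y : Fin N → ZMod 2) (j : Fin N) (c : ZMod 2),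
    j ∉ A → IsFree h r A j → Cons h r χ A y →
      Cons h r χ (insert j A) (Function.update y j c)
  shift : ∀ (χ χ' : V → ZMod 2) (A : Finset (Fin N)) (y y' : Fin N → ZMod 2),
    Cons h r χ A y → Cons h r χ' A y' → Cons h r (fun u => χ u + χ' u) A (fun j => y j + y' j)
  outer : ∀ (χ χ' : V → ZMod 2) (A : Finset (Fin N)) (y : Fin N → ZMod 2),
    (∀ u ∈ UU h r A, χ u = χ' u) → Cons h r χ A y → Cons h r χ' A y
  zero : ∀ (χ : V → ZMod 2) (A : Finset (Fin N)), (∀ u ∈ UU h r A, χ u = 0) →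
    Cons h r χ A (fun _ => 0)

/-- facts about the local rank -/
structure RhoFacts (h : V → Fin N → ZMod 2) (r : ℕ) : Prop where
  le_card : ∀ A : Finset (Fin N), rho h r A ≤ A.card
  half : ∀ A : Finset (Fin N), A.card ≤ 2 * r → A.card ≤ 2 * rho h r A
  mono : ∀ A B : Finset (Fin N), A ⊆ B → B.card ≤ 2 * r → rho h r A ≤ rho h r B
  union_le : ∀ A Z : Finset (Fin N), (A ∪ Z).card ≤ 2 * r → rho h r (A ∪ Z) ≤ rho h r A + Z.card
  submod : ∀ A B Y : Finset (Fin N), A ⊆ B → (B ∪ Y).card ≤ 2 * r →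
    rho h r (B ∪ Y) + rho h r A ≤ rho h r (A ∪ Y) + rho h r B
  exists_free : ∀ A Y : Finset (Fin N), (A ∪ Y).card ≤ 2 * r → rho h r A < rho h r (A ∪ Y) →
    ∃ j ∈ Y, j ∉ A ∧ IsFree h r A j
  anti : ∀ (A B : Finset (Fin N)) (j : Fin N), A ⊆ B → IsFree h r B j → IsFree h r A j
  UU_card : ∀ A : Finset (Fin N), A.card ≤ 2 * r → 2 * (UU h r A).card ≤ A.card
  UU_mono : ∀ A B : Finset (Fin N), A ⊆ B → UU h r A ⊆ UU h r B

end

/-- T1 -/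
def S_Cons : Prop := ∀ (V : Type) [Fintype V] [DecidableEq V] (N r : ℕ) (h : V → Fin N → ZMod 2),
  Expands h r → ConsFacts h r

/-- T2 -/
def S_Rho : Prop := ∀ (V : Type) [Fintype V] [DecidableEq V] (N r : ℕ) (h : V → Fin N → ZMod 2),
  Expands h r → RhoFacts h r

/-- T3: resolution steps preserve goodness -/
def S_Resolve : Prop := ∀ (V : Type) [Fintype V] [DecidableEq V] (N r b m : ℕ)
  (h : V → Fin N → ZMod 2), ConsFacts h r → RhoFacts h r → 6 * b + m + 1 ≤ 2 * r →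
  ∀ (χ : V → ZMod 2) (D : Finset (Cl N)) (G P R : Cl N), G ∈ D → P ∈ D → Resolvent G P R →
    (∀ E ⊆ insert R D, (∀ G ∈ E, ¬ Small h r b G) → E.card ≤ m) →
    Good h r b m χ D → Good h r b m χ (insert R D)

/-- T4: goodness depends only on `Vset` -/
def S_Local : Prop := ∀ (V : Type) [Fintype V] [DecidableEq V] (N r b m : ℕ)
  (h : V → Fin N → ZMod 2), ConsFacts h r → RhoFacts h r → R0 b m + m ≤ 2 * r →
  ∀ (D : Finset (Cl N)), (∀ E ⊆ D, (∀ G ∈ E, ¬ Small h r b G) → E.card ≤ m) →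
  ∀ (χ χ' : V → ZMod 2), (∀ u ∈ Vset h r b m D, χ u = χ' u) →
    Good h r b m χ D → Good h r b m χ' D

/-- T5: size of `Vset` -/
def S_Vcard : Prop := ∀ (V : Type) [Fintype V] [DecidableEq V] (N r b m : ℕ)
  (h : V → Fin N → ZMod 2), RhoFacts h r → 1 ≤ b → 1 ≤ m → m ^ 3 ≤ b → 8 * b ≤ r →
  ∀ (D : Finset (Cl N)), totalSpace D ≤ b * m → (Vset h r b m D).card ≤ 4 * (b * m)

/-- T6: from semantic refutations to black-white pebblings -/
def S_Walk : Prop := ∀ (V : Type) [Fintype V] [DecidableEq V] (preds : V → Finset V) (z : V)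
  (s τ : ℕ) (W : ℕ → Finset V) (f : ℕ → (V → ZMod 2) → Prop) (a : ℕ → Option (Option V)),
  SemRef preds z s τ W f a →
  ∃ (k : ℕ) (c : ℕ → PState V), IsWalk preds (2 * s + 1) k c ∧ ∃ i ≤ k, z ∈ (c i).1

/-- T7: short pebblings -/
def S_Short : Prop := ∀ (V : Type) [Fintype V] [DecidableEq V] (preds : V → Finset V) (z : V)
  (s k : ℕ) (c : ℕ → PState V), IsWalk preds s k c → (∃ i ≤ k, z ∈ (c i).1) →
  ∃ (k' : ℕ) (c' : ℕ → PState V), k' ≤ 2 * (Fintype.card V + 1) ^ (2 * s) ∧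
    IsWalk preds s k' c' ∧ ∃ i ≤ k', z ∈ (c' i).1

/-- T8: pebblings of the layered graph are long -/
def S_Long : Prop := ∀ (L M s k : ℕ) (c : ℕ → PState (DV L M)) (z : DV L M),
  5 * s + 1 ≤ M → z.1.val = L + 1 → z.2.2.val + 1 = M →
  IsWalk (dpreds L M) s k c → (∃ i ≤ k, z ∈ (c i).1) → 2 ^ L ≤ k + 1

/-- T9: expanding matrices with light rows -/
def S_Expander : Prop := ∀ (V : Type) [Fintype V] [DecidableEq V] (N e r : ℕ),
  4 * Fintype.card V * 2 ^ (2 * e + 4) * ((2 * e + 4) * r) ^ e ≤ N ^ e → 1 ≤ e → 1 ≤ N →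
  ∃ h : V → Fin N → ZMod 2, (∀ u, (supp (h u)).card ≤ 2 * e + 4) ∧ Expands h r

/-- T10: clauses of the formula are short and have a narrow refutation -/
def S_Upper : Prop := ∀ (V : Type) [Fintype V] [DecidableEq V] (N d : ℕ)
  (h : V → Fin N → ZMod 2) (preds : V → Finset V) (z : V) (rk : V → ℕ),
  (∀ u, (supp (h u)).card ≤ d) → (∀ v, (preds v).card ≤ 2) → (∀ v, ∀ u ∈ preds v, rk u < rk v) →
  (∀ C ∈ FF h preds z, C.card ≤ 3 * d) ∧ (FF h preds z).card ≤ (2 * N + 1) ^ (3 * d) ∧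
  ∃ (s : ℕ) (π : ℕ → Cl N), IsRefutation (FF h preds z) s π ∧ (∀ i < s, (π i).card ≤ 3 * d) ∧
    s ≤ (2 * N + 1) ^ (3 * d)

/-- T11: from space-aware refutations to semantic refutations -/
def S_Sem : Prop := S_Resolve → S_Local → S_Vcard →
  ∀ (V : Type) [Fintype V] [DecidableEq V] (N r b m d : ℕ)
  (h : V → Fin N → ZMod 2) (preds : V → Finset V) (z : V), ConsFacts h r → RhoFacts h r →
  (∀ u, (supp (h u)).card ≤ d) → (∀ v, (preds v).card ≤ 2) → 3 * d ≤ b → 1 ≤ b → 1 ≤ m →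
  m ^ 3 ≤ b → 8 * b ≤ r →
  ∀ (t : ℕ) (π : ℕ → Finset (Cl N)), IsSpaceRefutation (FF h preds z) t π →
    (∀ i ≤ t, totalSpace (π i) ≤ b * m) →
    ∃ (τ : ℕ) (W : ℕ → Finset V) (f : ℕ → (V → ZMod 2) → Prop) (a : ℕ → Option (Option V)),
      SemRef preds z (4 * (b * m)) τ W f a

/-- T12: the numerical choice of parameters -/
def S_Num : Prop := ∀ γ : ℝ, γ < 4 / 3 → ∃ (e c n₀ : ℕ), 1 ≤ e ∧ ∀ N ≥ n₀, 1 ≤ N ∧
  ∃ (b m L M : ℕ), 1 ≤ b ∧ 1 ≤ m ∧ m ^ 3 ≤ b ∧ 3 * (2 * e + 4) ≤ b ∧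
    5 * (2 * (4 * (b * m)) + 1) + 1 ≤ M ∧
    2 * ((L + 2) * (M * M) + 1) ^ (2 * (2 * (4 * (b * m)) + 1)) + 1 < 2 ^ L ∧
    4 * ((L + 2) * (M * M)) * 2 ^ (2 * e + 4) * ((2 * e + 4) * (8 * b)) ^ e ≤ N ^ e ∧
    (N : ℝ) ^ γ ≤ (b * m : ℕ) ∧ (2 * N + 1) ^ (3 * (2 * e + 4)) ≤ N ^ c

/-- The main theorem. -/
def S_Main : Prop := ∀ γ : ℝ, γ < 4 / 3 → ∃ (k c n₀ : ℕ), ∀ n ≥ n₀, ∃ F : Finset (Cl n),
  (∀ C ∈ F, C.card ≤ k) ∧ F.card ≤ n ^ c ∧
  (∃ (s : ℕ) (π : ℕ → Cl n), IsRefutation F s π ∧ s ≤ n ^ c ∧ ∀ i < s, (π i).card ≤ k) ∧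
  ∀ (t : ℕ) (π : ℕ → Finset (Cl n)), IsSpaceRefutation F t π →
    ∃ i ≤ t, (n : ℝ) ^ γ ≤ totalSpace (π i)

end Pool.Agent.Helper600R2.TS
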